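import Pool.Agent.helper93.SlipIdeal

/-!
# Zariski closed subsets of the Hilbert functor given by relations between the coefficients of the
reduced forms of monomials
-/

open MvPolynomial

namespace Pool.Agent.SlipFlag

noncomputable section

variable {ι A : Type} [AddCommGroup A] {w : ι → A}

theorem exists_homogenization {R : Type} [CommRing R] [Algebra ℂ R] {Sym : Type} (g : R)
    (B : Sym → R) (P : MvPolynomial Sym ℂ) :
    ∃ (N : ℕ) (x : R), ∀ (L : Type) [Field L] [Algebra ℂ L] (φ : R →ₐ[ℂ] L), φ g ≠ 0 →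
      φ x = (φ g) ^ N * aeval (fun s => φ (B s) / φ g) P := by
  induction P using MvPolynomial.induction_on with
  | C a =>
    refine ⟨0, algebraMap ℂ R a, fun L _ _ φ _ => ?_⟩
    rw [AlgHom.commutes, pow_zero, one_mul, aeval_C]
  | add p q hp hq =>
    obtain ⟨N₁, x₁, h₁⟩ := hp
    obtain ⟨N₂, x₂, h₂⟩ := hq
    refine ⟨N₁ + N₂, g ^ N₂ * x₁ + g ^ N₁ * x₂, fun L _ _ φ hg => ?_⟩
    rw [map_add, map_mul, map_mul, map_pow, map_pow, h₁ L φ hg, h₂ L φ hg, map_add]
    ring
  | mul_X p s hp =>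
    obtain ⟨N, x, h⟩ := hp
    refine ⟨N + 1, x * B s, fun L _ _ φ hg => ?_⟩
    rw [map_mul, h L φ hg, map_mul, aeval_X]
    field_simp
    ring

/-- local lift of a chart: around a `ℂ`-point `φ₀` at which the monomials `a` span the
degree `D` part of the quotient -/
theorem exists_chart {R : Type} [CommRing R] [Algebra ℂ R] {J : Ideal (MvPolynomial ι R)}
    (hJ : IsHomog w J) (φ₀ : R →ₐ[ℂ] ℂ) {D : A} [Finite {m : ι →₀ ℕ // Finsupp.weight w m = D}]
    {r : ℕ} {a : Fin r → (ι →₀ ℕ)} (ha : ∀ j, Finsupp.weight w (a j) = D)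
    (c₀ : (ι →₀ ℕ) → Fin r → ℂ)
    (hc₀ : ∀ m, Finsupp.weight w m = D →
      monomial m 1 - lc a (c₀ m) ∈ J.map (MvPolynomial.map (φ₀ : R →+* ℂ))) :
    ∃ (g : R) (B : (ι →₀ ℕ) → Fin r → R), φ₀ g = 1 ∧
      (∀ m, Finsupp.weight w m = D → ∀ j, φ₀ (B m j) = c₀ m j) ∧
      ∀ m, Finsupp.weight w m = D → monomial m g - lc a (B m) ∈ J := by
  classical
  have : Fintype {m : ι →₀ ℕ // Finsupp.weight w m = D} := Fintype.ofFinite _
  have hsurj : Function.Surjective (MvPolynomial.map (σ := ι) (φ₀ : R →+* ℂ)) :=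
    map_surjective _ fun a => ⟨algebraMap ℂ R a, φ₀.commutes a⟩
  have hq : ∀ m : {m : ι →₀ ℕ // Finsupp.weight w m = D}, ∃ q ∈ J, q.IsWeightedHomogeneous w D ∧
      MvPolynomial.map (φ₀ : R →+* ℂ) q = monomial m.1 1 - lc a (c₀ m.1) := by
    intro m
    obtain ⟨q, hq, hq'⟩ := (Ideal.mem_map_iff_of_surjective _ hsurj).mp (hc₀ m.1 m.2)
    refine ⟨weightedHomogeneousComponent w D q, hJ q hq D,
      weightedHomogeneousComponent_isWeightedHomogeneous D q, ?_⟩
    rw [← component_map, hq']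
    apply IsWeightedHomogeneous.weightedHomogeneousComponent_same
    exact (isWeightedHomogeneous_monomial w _ _ m.2).sub (lc_isWeightedHomogeneous ha _)
  choose q hqJ hqD hqφ using hq
  let C₀ : (ι →₀ ℕ) → Fin r → R := fun m j => algebraMap ℂ R (c₀ m j)
  have hC₀ : ∀ m j, φ₀ (C₀ m j) = c₀ m j := fun m j => φ₀.commutes _
  let Q : {m : ι →₀ ℕ // Finsupp.weight w m = D} → MvPolynomial ι R := fun m =>
    q m + lc a (C₀ m.1)
  have hQD : ∀ m, (Q m).IsWeightedHomogeneous w D := fun m =>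
    (hqD m).add (lc_isWeightedHomogeneous ha _)
  have hQφ : ∀ m, MvPolynomial.map (φ₀ : R →+* ℂ) (Q m) = monomial m.1 1 := by
    intro m
    simp only [Q]
    rw [map_add, hqφ, map_lc]
    have : (fun j => (φ₀ : R →+* ℂ) (C₀ m.1 j)) = c₀ m.1 := funext fun j => hC₀ m.1 j
    rw [this, sub_add_cancel]
  let U : Matrix {m : ι →₀ ℕ // Finsupp.weight w m = D}
    {m : ι →₀ ℕ // Finsupp.weight w m = D} R := fun m m' => coeff m'.1 (Q m)
  have hU : (φ₀ : R →+* ℂ).mapMatrix U = 1 := by
    ext m m'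
    rw [RingHom.mapMatrix_apply, Matrix.map_apply]
    simp only [U]
    rw [← coeff_map, hQφ, coeff_monomial, Matrix.one_apply]
    congr 1
    rw [Subtype.ext_iff]
  have hQsum : ∀ m, Q m = ∑ m', monomial m'.1 (U m m') := by
    intro m
    ext d
    rw [coeff_sum]
    simp only [coeff_monomial]
    by_cases hd : Finsupp.weight w d = D
    · rw [Finset.sum_eq_single (⟨d, hd⟩ : {m : ι →₀ ℕ // Finsupp.weight w m = D})]
      · rw [if_pos rfl]
      · intro b _ hb
        rw [if_neg]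
        rintro rfl
        exact hb rfl
      · intro h; exact absurd (Finset.mem_univ _) h
    · rw [(hQD m).coeff_eq_zero d hd, Finset.sum_eq_zero]
      intro b _
      rw [if_neg]
      rintro rfl
      exact hd b.2
  let g : R := U.det
  let B : (ι →₀ ℕ) → Fin r → R := fun m j =>
    if hm : Finsupp.weight w m = D then ∑ l, U.adjugate ⟨m, hm⟩ l * C₀ l.1 j else 0
  refine ⟨g, B, ?_, ?_, ?_⟩
  · have := (φ₀ : R →+* ℂ).map_det U
    rw [hU, Matrix.det_one] at this
    exact this
  · intro m hm j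
    simp only [B]
    rw [dif_pos hm, map_sum]
    have h1 : ∀ l, φ₀ (U.adjugate ⟨m, hm⟩ l) =
        (1 : Matrix {m : ι →₀ ℕ // Finsupp.weight w m = D} _ ℂ) ⟨m, hm⟩ l := by
      intro l
      have h2 := (φ₀ : R →+* ℂ).map_adjugate U
      rw [hU, Matrix.adjugate_one] at h2
      exact congrFun (congrFun h2 ⟨m, hm⟩) l
    simp only [map_mul, h1, hC₀, Matrix.one_apply]
    simp
  · intro m hm
    have h1 : ∑ l, U.adjugate ⟨m, hm⟩ l • Q l = monomial m g := by
      have h2 : ∀ l, U.adjugate ⟨m, hm⟩ l • Q l =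
          ∑ m', monomial m'.1 (U.adjugate ⟨m, hm⟩ l * U l m') := by
        intro l
        rw [hQsum l, Finset.smul_sum]
        simp only [smul_monomial, smul_eq_mul]
      simp only [h2]
      rw [Finset.sum_comm]
      have h3 : ∀ m' : {m : ι →₀ ℕ // Finsupp.weight w m = D},
          ∑ l, monomial m'.1 (U.adjugate ⟨m, hm⟩ l * U l m') =
            monomial m'.1 ((U.adjugate * U) ⟨m, hm⟩ m') := by
        intro m'
        rw [Matrix.mul_apply, map_sum]
      simp only [h3, Matrix.adjugate_mul, Matrix.smul_apply, Matrix.one_apply]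
      rw [Finset.sum_eq_single (⟨m, hm⟩ : {m : ι →₀ ℕ // Finsupp.weight w m = D})]
      · simp [g]
      · intro b _ hb
        rw [if_neg (Ne.symm hb), smul_zero, map_zero]
      · intro h; exact absurd (Finset.mem_univ _) h
    have h4 : lc a (B m) = ∑ l, U.adjugate ⟨m, hm⟩ l • lc a (C₀ l.1) := by
      simp only [lc, B, dif_pos hm, Finset.smul_sum, smul_monomial, smul_eq_mul, map_sum]
      rw [Finset.sum_comm]
    rw [← h1, h4, ← Finset.sum_sub_distrib]
    refine Ideal.sum_mem _ fun l _ => ?_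
    rw [← smul_sub]
    have h5 : Q l - lc a (C₀ l.1) = q l := by simp [Q]
    rw [h5, smul_eq_C_mul]
    exact Ideal.mul_mem_left _ _ (hqJ l)

/-- the set of ideals `J` for which the relation `P` holds between the coefficients
of the reduced forms of the monomials with respect to the monomials `a D`, `D ∈ Ds` -/
def relSet (w : ι → A) (h : A → ℕ) {r : ℕ} (a : A → Fin r → (ι →₀ ℕ)) (Ds : Finset A)
    (P : MvPolynomial ((ι →₀ ℕ) × Fin r) ℂ) : Set (Hilb w h ℂ) :=
  {J | ∀ c : (ι →₀ ℕ) → Fin r → ℂ,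
    (∀ D ∈ Ds, ∀ m, Finsupp.weight w m = D → monomial m 1 - lc (a D) (c m) ∈ J.1) →
    (∀ m, Finsupp.weight w m ∉ Ds → c m = 0) →
    aeval (fun s => c s.1 s.2) P = 0}

theorem isZariskiClosed_relSet {h : A → ℕ} {r : ℕ}
    (hfin : ∀ D, Finite {m : ι →₀ ℕ // Finsupp.weight w m = D})
    {a : A → Fin r → (ι →₀ ℕ)} {Ds : Finset A}
    (ha : ∀ D ∈ Ds, ∀ j, Finsupp.weight w (a D j) = D)
    (P : MvPolynomial ((ι →₀ ℕ) × Fin r) ℂ) :
    IsZariskiClosed (relSet w h a Ds P) := by
  classical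
  intro R _ _ J
  refine ⟨{ carrier := {x | ∀ φ : R →ₐ[ℂ] ℂ, hilbMap (φ : R →+* ℂ) J ∈ relSet w h a Ds P → φ x = 0}
            add_mem' := fun hx hy φ hφ => by rw [map_add, hx φ hφ, hy φ hφ, add_zero]
            zero_mem' := fun φ _ => map_zero φ
            smul_mem' := fun c x hx φ hφ => by rw [smul_eq_mul, map_mul, hx φ hφ, mul_zero] },
    fun φ₀ => ⟨fun hφ₀ x hx => hx φ₀ hφ₀, fun hφ₀ => ?_⟩⟩
  by_contra hnot
  have hnot' : ¬ ∀ c : (ι →₀ ℕ) → Fin r → ℂ,
    (∀ D ∈ Ds, ∀ m, Finsupp.weight w m = D →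
      monomial m 1 - lc (a D) (c m) ∈ (hilbMap (φ₀ : R →+* ℂ) J).1) →
    (∀ m, Finsupp.weight w m ∉ Ds → c m = 0) →
    aeval (fun s => c s.1 s.2) P = 0 := hnot
  push Not at hnot'
  obtain ⟨c₀, hc₀, hc₀', hP⟩ := hnot'
  have hchart : ∀ D ∈ Ds, ∃ (g : R) (B : (ι →₀ ℕ) → Fin r → R), φ₀ g = 1 ∧
      (∀ m, Finsupp.weight w m = D → ∀ j, φ₀ (B m j) = c₀ m j) ∧
      ∀ m, Finsupp.weight w m = D → monomial m g - lc (a D) (B m) ∈ J.1 := by
    intro D hD
    have := hfin D
    exact exists_chart J.2.1 φ₀ (ha D hD) c₀ (fun m hm => hc₀ D hD m hm)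
  choose! gD BD hg hB hJ using hchart
  let g : R := ∏ D ∈ Ds, gD D
  let B : (ι →₀ ℕ) × Fin r → R := fun s =>
    if Finsupp.weight w s.1 ∈ Ds then
      (∏ D ∈ Ds.erase (Finsupp.weight w s.1), gD D) * BD (Finsupp.weight w s.1) s.1 s.2
    else 0
  obtain ⟨N, x, hx⟩ := exists_homogenization g B P
  have hg1 : φ₀ g = 1 := by
    simp only [g]
    rw [map_prod, Finset.prod_eq_one]
    exact hg
  have hB1 : ∀ s, φ₀ (B s) = c₀ s.1 s.2 := by
    intro s
    simp only [B]
    split_ifs with hs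
    · rw [map_mul, map_prod, Finset.prod_eq_one, one_mul, hB _ hs _ rfl]
      intro D hD
      exact hg D (Finset.mem_of_mem_erase hD)
    · rw [hc₀' _ hs, map_zero]; rfl
  -- the function `g * x` vanishes on the preimage of the set
  have hmem : ∀ φ : R →ₐ[ℂ] ℂ, hilbMap (φ : R →+* ℂ) J ∈ relSet w h a Ds P → φ (g * x) = 0 := by
    intro φ hφ
    by_cases hφg : φ g = 0
    · rw [map_mul, hφg, zero_mul]
    · rw [map_mul, hx ℂ φ hφg]
      have h1 := hφ (fun m j => φ (B (m, j)) / φ g) ?_ ?_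
      · have h2 : (fun s : (ι →₀ ℕ) × Fin r => φ (B s) / φ g) =
            fun s => (fun m j => φ (B (m, j)) / φ g) s.1 s.2 := by
          funext s; rfl
        rw [h2, h1, mul_zero, mul_zero]
      · intro D hD m hm
        have h3 : ∀ j, B (m, j) = (∏ D' ∈ Ds.erase D, gD D') * BD D m j := by
          intro j
          simp only [B]
          rw [if_pos (by rw [hm]; exact hD), hm]
        have h4 : g = (∏ D' ∈ Ds.erase D, gD D') * gD D := by
          simp only [g]
          rw [mul_comm, Finset.mul_prod_erase Ds gD hD]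
        have h5 : monomial m g - lc (a D) (fun j => B (m, j)) ∈ J.1 := by
          have h6 : monomial m g - lc (a D) (fun j => B (m, j)) =
              C (∏ D' ∈ Ds.erase D, gD D') * (monomial m (gD D) - lc (a D) (BD D m)) := by
            rw [mul_sub, C_mul_monomial, ← h4]
            congr 1
            simp only [lc, Finset.mul_sum, C_mul_monomial, h3]
          rw [h6]
          exact Ideal.mul_mem_left _ _ (hJ D hD m hm)
        have h7 : MvPolynomial.map (φ : R →+* ℂ) (monomial m g - lc (a D) (fun j => B (m, j))) ∈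
            (hilbMap (φ : R →+* ℂ) J).1 := Ideal.mem_map_of_mem _ h5
        have h8 : monomial m 1 - lc (a D) (fun j => φ (B (m, j)) / φ g) =
            C (φ g)⁻¹ * MvPolynomial.map (φ : R →+* ℂ)
              (monomial m g - lc (a D) (fun j => B (m, j))) := by
          rw [map_sub, map_monomial, map_lc, mul_sub, C_mul_monomial]
          congr 1
          · congr 1
            exact (inv_mul_cancel₀ hφg).symm
          · simp only [lc, Finset.mul_sum, C_mul_monomial]
            refine Finset.sum_congr rfl fun j _ => ?_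
            congr 1
            rw [div_eq_inv_mul]
            rfl
        rw [h8]
        exact Ideal.mul_mem_left _ _ h7
      · intro m hm
        funext j
        simp only [B]
        rw [if_neg hm, map_zero, zero_div]
        rfl
  have h0 := hφ₀ (g * x) hmem
  rw [map_mul, hg1, one_mul, hx ℂ φ₀ (by rw [hg1]; exact one_ne_zero), hg1, one_pow, one_mul] at h0
  apply hP
  have h2 : (fun s : (ι →₀ ℕ) × Fin r => φ₀ (B s) / 1) = fun s => c₀ s.1 s.2 := by
    funext s
    rw [hB1, div_one]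
  rw [h2] at h0
  exact h0

end

end Pool.Agent.SlipFlag
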