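import Pool.Agent.helper93.SlipMain

/-!
# The flag theorem for closures of sets of ideals of points
-/

open MvPolynomial

namespace Pool.Agent.SlipFlag

noncomputable section

variable {ι A : Type} [AddCommGroup A] {w : ι → A}

theorem aeval_congr_vars {σ S : Type} [CommRing S] [Algebra ℂ S] {g₁ g₂ : σ → S}
    {P : MvPolynomial σ ℂ} (h : ∀ s ∈ P.vars, g₁ s = g₂ s) : aeval g₁ P = aeval g₂ P :=
  eval₂Hom_congr' rfl (fun s hs _ => h s hs) rfl

theorem IsBasisAt.injective {R : Type} [CommRing R] [Nontrivial R] {J : Ideal (MvPolynomial ι R)}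
    {D : A} {n : ℕ} {b : Fin n → (ι →₀ ℕ)} (hb : IsBasisAt w J D b) : Function.Injective b := by
  intro i j hij
  by_contra hne
  have h1 : lc b (Pi.single i (1 : R) - Pi.single j 1 : Fin n → R) = 0 := by
    have h2 : ∀ l, lc b (Pi.single l (1 : R)) = monomial (b l) 1 := by
      intro l
      rw [lc, Finset.sum_eq_single l]
      · rw [Pi.single_eq_same]
      · intro l' _ hl
        rw [Pi.single_eq_of_ne hl, map_zero]
      · intro h; exact absurd (Finset.mem_univ _) h
    have h3 : lc b (Pi.single i (1 : R) - Pi.single j 1 : Fin n → R) =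
        lc b (Pi.single i (1 : R)) - lc b (Pi.single j 1) := by
      simp only [lc, Pi.sub_apply, map_sub, Finset.sum_sub_distrib]
    rw [h3, h2, h2, hij, sub_self]
  have h2 := hb.indep _ (by rw [h1]; exact Ideal.zero_mem _)
  have h3 := congrFun h2 i
  rw [Pi.sub_apply, Pi.single_eq_same, Pi.single_eq_of_ne hne, sub_zero, Pi.zero_apply] at h3
  exact one_ne_zero h3

/-- the sets `relSet` of the relations satisfied by the generic points contain all the
ideals of `r` points -/
theorem mem_relSet_of_points {r : ℕ} {a : A → Fin r → (ι →₀ ℕ)} {Ds : Finset A}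
    (hr : ∀ D ∈ Ds, genHF w r D = r)
    (ha : ∀ D ∈ Ds, ∀ j, Finsupp.weight w (a D j) = D)
    (hinj : ∀ D ∈ Ds, Function.Injective (a D))
    (P : MvPolynomial ((ι →₀ ℕ) × Fin r) ℂ) [DecidableEq A]
    (hP : aeval (fun s : (ι →₀ ℕ) × Fin r =>
      if Finsupp.weight w s.1 ∈ Ds then cf (yF (r := r) le_rfl) (a (Finsupp.weight w s.1)) s.1 s.2
      else 0) P = 0)
    (J : Hilb w (genHF w r) ℂ) {z : Fin r → ι → ℂ} (hz : J.1 = pIdeal w z) :
    J ∈ relSet w (genHF w r) a Ds P := by
  classical
  intro c hc hc'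
  have hdetz : ∀ D ∈ Ds, (evMat z (a D)).det ≠ 0 := by
    intro D hD
    have h1 := indep_of_span' J.2 (hr D hD) (ha D hD) (fun m hm => ⟨c m, hc D hD m hm⟩)
    apply det_ne_zero_of_indep
    intro c' hc'
    apply h1
    rw [hz, lc_mem_pIdeal_iff (ha D hD)]
    exact hc'
  have hcz : ∀ D ∈ Ds, ∀ m, Finsupp.weight w m = D → c m = cf z (a D) m := by
    intro D hD m hm
    apply cf_unique (hdetz D hD)
    have := hc D hD m hm
    rw [hz, sub_lc_mem_pIdeal_iff (ha D hD) hm] at this
    exact this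
  let dd : A → MvPolynomial (Fin r × ι) ℂ := fun D => (evMat (genPt ℂ le_rfl) (a D)).det
  let g : MvPolynomial (Fin r × ι) ℂ := ∏ D ∈ Ds, dd D
  let B : (ι →₀ ℕ) × Fin r → MvPolynomial (Fin r × ι) ℂ := fun s =>
    if Finsupp.weight w s.1 ∈ Ds then
      (∏ D ∈ Ds.erase (Finsupp.weight w s.1), dd D) *
        (evMat (genPt ℂ le_rfl) (Function.update (a (Finsupp.weight w s.1)) s.2 s.1)).det
    else 0
  obtain ⟨N, x, hx⟩ := exists_homogenization g B P
  -- general computation of the quotients
  have hquot : ∀ (L : Type) [Field L] [Algebra ℂ L] (φ : MvPolynomial (Fin r × ι) ℂ →ₐ[ℂ] L)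
      (y : Fin r → ι → L), (∀ i ρ, φ (genPt ℂ le_rfl i ρ) = y i ρ) →
      (∀ D ∈ Ds, (evMat y (a D)).det ≠ 0) → φ g ≠ 0 ∧ ∀ s : (ι →₀ ℕ) × Fin r,
        φ (B s) / φ g = if Finsupp.weight w s.1 ∈ Ds then
          cf y (a (Finsupp.weight w s.1)) s.1 s.2 else 0 := by
    intro L _ _ φ y hφy hdet
    have hφdet : ∀ b : Fin r → (ι →₀ ℕ), φ (evMat (genPt ℂ le_rfl) b).det = (evMat y b).det := by
      intro b
      have h1 := map_det_evMat (φ : MvPolynomial (Fin r × ι) ℂ →+* L) (genPt ℂ le_rfl) b
      refine h1.trans ?_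
      congr 2
      funext i ρ
      exact hφy i ρ
    have hφg : φ g ≠ 0 := by
      simp only [g]
      rw [map_prod, Finset.prod_ne_zero_iff]
      intro D hD
      simp only [dd]
      rw [hφdet]
      exact hdet D hD
    refine ⟨hφg, fun s => ?_⟩
    simp only [B]
    split_ifs with hs
    · rw [div_eq_iff hφg, cf]
      have h2 : φ g = φ (∏ D ∈ Ds.erase (Finsupp.weight w s.1), dd D) *
          (evMat y (a (Finsupp.weight w s.1))).det := by
        rw [← hφdet, ← map_mul]
        congr 1
        rw [mul_comm]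
        exact (Finset.mul_prod_erase Ds dd hs).symm
      rw [h2, map_mul, hφdet]
      have h3 := hdet _ hs
      field_simp
    · rw [map_zero, zero_div]
  obtain ⟨hgF, hqF⟩ := hquot (FF (Fin r × ι))
    (IsScalarTower.toAlgHom ℂ (MvPolynomial (Fin r × ι) ℂ) (FF (Fin r × ι)))
    (yF le_rfl) (fun i ρ => rfl) (fun D hD => det_yF_ne_zero le_rfl (hinj D hD))
  have h1 := hx _ _ hgF
  have h2 : (fun s => (IsScalarTower.toAlgHom ℂ (MvPolynomial (Fin r × ι) ℂ) (FF (Fin r × ι))) (B s)
      / (IsScalarTower.toAlgHom ℂ (MvPolynomial (Fin r × ι) ℂ) (FF (Fin r × ι))) g) =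
      fun s : (ι →₀ ℕ) × Fin r => if Finsupp.weight w s.1 ∈ Ds then
          cf (yF (r := r) le_rfl) (a (Finsupp.weight w s.1)) s.1 s.2 else 0 := funext hqF
  rw [h2, hP, mul_zero] at h1
  have hx0 : x = 0 := by
    apply IsFractionRing.injective (MvPolynomial (Fin r × ι) ℂ) (FF (Fin r × ι))
    rw [map_zero]
    exact h1
  obtain ⟨hgz, hqz⟩ := hquot ℂ (aeval (fun p : Fin r × ι => z p.1 p.2)) z
    (fun i ρ => by simp [genPt]) hdetz
  have h3 := hx _ _ hgz
  rw [hx0, map_zero] at h3
  have h4 : (fun s => (aeval (fun p : Fin r × ι => z p.1 p.2)) (B s) /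
      (aeval (fun p : Fin r × ι => z p.1 p.2)) g) = fun s : (ι →₀ ℕ) × Fin r => c s.1 s.2 := by
    funext s
    rw [hqz]
    split_ifs with hs
    · rw [hcz _ hs _ rfl]
    · rw [hc' _ hs]; rfl
  rw [h4] at h3
  exact (mul_eq_zero.mp h3.symm).resolve_left (pow_ne_zero _ hgz)

theorem flag_abstract [Finite ι]
    (hfin : ∀ D, Finite {m : ι →₀ ℕ // Finsupp.weight w m = D}) (r : ℕ)
    (U : (k : ℕ) → Set (Hilb w (genHF w k) ℂ))
    (hU1 : ∀ J ∈ U r, ∃ z : Fin r → ι → ℂ, J.1 = pIdeal w z)
    (hU2 : (U r).Nonempty → ∀ y : Fin r × ι → ℂ, IsGen y → ∀ (k : ℕ) (hk : k ≤ r)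
      (J : Hilb w (genHF w k) ℂ), J.1 = pIdeal w (yC y hk) → J ∈ U k)
    (I : Hilb w (genHF w r) ℂ) (hI : I ∈ @closure _ (hilbTopology w (genHF w r)) (U r)) :
    ∃ J : ℕ → Ideal (MvPolynomial ι ℂ), J r = I.1 ∧ J 0 = ⊤ ∧ (∀ k < r, J (k + 1) ≤ J k) ∧
      ∀ k ≤ r, ∃ K : Hilb w (genHF w k) ℂ,
        K ∈ @closure _ (hilbTopology w (genHF w k)) (U k) ∧ K.1 = J k := by
  classical
  have hUne : (U r).Nonempty := by
    rw [← @closure_nonempty_iff _ (hilbTopology w (genHF w r))]
    exact ⟨I, hI⟩
  replace hU2 := hU2 hUne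
  -- the number of monomials of degree `D`
  let d : A → ℕ := fun D => Nat.card {m : ι →₀ ℕ // Finsupp.weight w m = D}
  have hgood : ∀ D, r ≤ d D → genHF w r D = r := by
    intro D hD
    rw [genHF_eq]
    exact min_eq_left hD
  have hbas : ∀ D, ∃ b : Fin r → (ι →₀ ℕ), r ≤ d D → IsBasisAt w I.1 D b := by
    intro D
    by_cases hD : r ≤ d D
    · obtain ⟨b, hb⟩ := exists_isBasisAt' I.2 D (hgood D hD)
      exact ⟨b, fun _ => hb⟩
    · exact ⟨fun _ => 0, fun h => absurd h hD⟩
  choose a ha using hbas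
  have hcI : ∀ m : ι →₀ ℕ, ∃ c : Fin r → ℂ, (r ≤ d (Finsupp.weight w m) →
      monomial m 1 - lc (a (Finsupp.weight w m)) c ∈ I.1) ∧
      (¬ r ≤ d (Finsupp.weight w m) → c = 0) := by
    intro m
    by_cases hD : r ≤ d (Finsupp.weight w m)
    · obtain ⟨c, hc⟩ := (ha _ hD).span m rfl
      exact ⟨c, fun _ => hc, fun h => absurd hD h⟩
    · exact ⟨0, fun h => absurd h hD, fun _ => rfl⟩
  choose cI hcI hcI0 using hcI
  let cgen : (ι →₀ ℕ) → Fin r → FF (Fin r × ι) := fun m =>
    if r ≤ d (Finsupp.weight w m) then cf (yF (r := r) le_rfl) (a (Finsupp.weight w m)) m else 0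
  let G₀ : Subalgebra ℂ (FF (Fin r × ι) × ℂ) :=
    (aeval (fun s : (ι →₀ ℕ) × Fin r => (cgen s.1 s.2, cI s.1 s.2))).range
  have hG₀ : IsGraph G₀ := by
    rintro α ⟨P, hP'⟩
    have hP : aeval (fun s : (ι →₀ ℕ) × Fin r => (cgen s.1 s.2, cI s.1 s.2)) P = (0, α) := hP'
    have hP1 : aeval (fun s : (ι →₀ ℕ) × Fin r => cgen s.1 s.2) P = 0 := by
      have h1 := congrArg (AlgHom.fst ℂ (FF (Fin r × ι)) ℂ) hP
      rw [comp_aeval_apply] at h1
      exact h1
    have hP2 : aeval (fun s : (ι →₀ ℕ) × Fin r => cI s.1 s.2) P = α := by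
      have h1 := congrArg (AlgHom.snd ℂ (FF (Fin r × ι)) ℂ) hP
      rw [comp_aeval_apply] at h1
      exact h1
    let Ds : Finset A := (P.vars.image (fun s => Finsupp.weight w s.1)).filter (fun D => r ≤ d D)
    have hDs : ∀ D ∈ Ds, r ≤ d D := fun D hD => (Finset.mem_filter.mp hD).2
    have hsub : U r ⊆ relSet w (genHF w r) a Ds P := by
      intro J hJ
      obtain ⟨z, hz⟩ := hU1 J hJ
      refine mem_relSet_of_points (fun D hD => hgood D (hDs D hD))
        (fun D hD => (ha D (hDs D hD)).deg) (fun D hD => (ha D (hDs D hD)).injective) P ?_ J hz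
      refine Eq.trans ?_ hP1
      apply aeval_congr_vars
      intro s hs
      by_cases hD : r ≤ d (Finsupp.weight w s.1)
      · have h1 : Finsupp.weight w s.1 ∈ Ds :=
          Finset.mem_filter.mpr ⟨Finset.mem_image_of_mem _ hs, hD⟩
        simp only [cgen]
        rw [if_pos h1, if_pos hD]
      · have h1 : Finsupp.weight w s.1 ∉ Ds := fun h => hD (hDs _ h)
        simp only [cgen]
        rw [if_neg h1, if_neg hD]
        rfl
    have hclosed := (isClosed_hilb_iff w).mpr
      (isZariskiClosed_relSet (h := genHF w r) hfin (a := a) (Ds := Ds)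
        (fun D hD => (ha D (hDs D hD)).deg) P)
    have hmem : I ∈ relSet w (genHF w r) a Ds P := by
      let _ := hilbTopology w (genHF w r)
      exact closure_minimal hsub hclosed hI
    have h1 := hmem (fun m => if Finsupp.weight w m ∈ Ds then cI m else 0) ?_ ?_
    · rw [← hP2, ← h1]
      apply aeval_congr_vars
      intro s hs
      by_cases hD : r ≤ d (Finsupp.weight w s.1)
      · have h1 : Finsupp.weight w s.1 ∈ Ds :=
          Finset.mem_filter.mpr ⟨Finset.mem_image_of_mem _ hs, hD⟩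
        rw [if_pos h1]
      · rw [hcI0 _ hD]
        split_ifs <;> rfl
    · intro D hD m hm
      rw [if_pos (by rw [hm]; exact hD)]
      have := hcI m (by rw [hm]; exact hDs D hD)
      rwa [hm] at this
    · intro m hm
      rw [if_neg hm]
  obtain ⟨G, V, hle, hG, hV⟩ := exists_place G₀ hG₀
  have hfam : ∀ {k : ℕ} (hk : k ≤ r), fam w G hk ∈ Hilb w (genHF w k) (RT G) :=
    fun hk => fam_mem hfin hG V hV hk
  let J : ℕ → Ideal (MvPolynomial ι ℂ) := fun k =>
    if hk : k ≤ r then (fam w G hk).map (MvPolynomial.map (pi0 G : RT G →+* ℂ)) else ⊥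
  have hJ : ∀ {k : ℕ} (hk : k ≤ r),
      J k = (fam w G hk).map (MvPolynomial.map (pi0 G : RT G →+* ℂ)) := by
    intro k hk
    simp only [J]
    rw [dif_pos hk]
  refine ⟨J, ?_, ?_, ?_, ?_⟩
  · -- `J r = I`
    rw [hJ le_rfl]
    symm
    apply eq_of_le_of_mem_hilb I.2 (map_mem_hilb _ (hfam le_rfl))
    apply I.2.1.le_of
    intro D f hf hfI
    by_cases hD : r ≤ d D
    · have hred : ∀ m : ι →₀ ℕ, Finsupp.weight w m = D → monomial m 1 - lc (a D) (cI m) ∈
          (fam w G le_rfl).map (MvPolynomial.map (pi0 G : RT G →+* ℂ)) := by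
        intro m hm
        have hdet : (evMat (yF (r := r) le_rfl) (a D)).det ≠ 0 :=
          det_yF_ne_zero le_rfl (ha D hD).injective
        have hdetC : (evMat (genPt (ι := ι) (r := r) ℂ le_rfl) (a D)).det ≠ 0 :=
          det_genPt_ne_zero le_rfl (ha D hD).injective
        have hex : ∀ j, ∃ c : RT G, piF G c = cf (yF (r := r) le_rfl) (a D) m j ∧
            pi0 G c = cI m j := by
          intro j
          let x : RR (Fin r × ι) := IsLocalization.mk' _
            (evMat (genPt ℂ le_rfl) (Function.update (a D) j m)).det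
            (⟨_, det_genPt_mem_dens le_rfl hdetC⟩ : dens (Fin r × ι))
          have hx : toF _ x = cf (yF (r := r) le_rfl) (a D) m j := by
            rw [cf, eq_div_iff hdet, det_yF, det_yF, ← toF_algebraMap, ← toF_algebraMap,
              ← map_mul]
            congr 1
            exact IsLocalization.mk'_spec (RR (Fin r × ι)) _ _
          have hmemR : (x, cI m j) ∈ R1 G := by
            rw [mem_R1, hx]
            apply hle
            refine ⟨X (m, j), ?_⟩
            have h5 : cgen m j = cf (yF (r := r) le_rfl) (a D) m j := by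
              simp only [cgen]
              rw [if_pos (by rw [hm]; exact hD), hm]
            have h6 : aeval (fun s : (ι →₀ ℕ) × Fin r => (cgen s.1 s.2, cI s.1 s.2))
                (X (m, j) : MvPolynomial ((ι →₀ ℕ) × Fin r) ℂ) =
                  (cf (yF (r := r) le_rfl) (a D) m j, cI m j) := by
              rw [aeval_X, h5]
            exact h6
          exact ⟨⟨(x, cI m j), hmemR⟩, hx, rfl⟩
        choose c hc1 hc2 using hex
        have h6 : monomial m 1 - lc (a D) c ∈ fam w G le_rfl := by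
          rw [mem_fam, map_sub, map_monomial, map_lc, map_one]
          have h7 : (fun j => (piF G : RT G →+* FF (Fin r × ι)) (c j)) =
              cf (yF (r := r) le_rfl) (a D) m := funext hc1
          rw [h7, sub_lc_mem_pIdeal_iff (ha D hD).deg hm]
          exact fun i => cf_spec hdet m i
        have h8 := Ideal.mem_map_of_mem (MvPolynomial.map (pi0 G : RT G →+* ℂ)) h6
        rw [map_sub, map_monomial, map_lc, map_one] at h8
        have h9 : (fun j => (pi0 G : RT G →+* ℂ) (c j)) = cI m := funext hc2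
        rwa [h9] at h8
      -- reduce `f`
      let ctot : Fin r → ℂ := fun j => ∑ m ∈ f.support, coeff m f * cI m j
      have hsum : ∀ K : Ideal (MvPolynomial ι ℂ), (∀ m : ι →₀ ℕ, Finsupp.weight w m = D →
          monomial m 1 - lc (a D) (cI m) ∈ K) → f - lc (a D) ctot ∈ K := by
        intro K hK
        have h1 : f - lc (a D) ctot =
            ∑ m ∈ f.support, C (coeff m f) * (monomial m 1 - lc (a D) (cI m)) := by
          have h2 : lc (a D) ctot = ∑ m ∈ f.support, C (coeff m f) * lc (a D) (cI m) := by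
            simp only [lc, ctot, map_sum, Finset.mul_sum, C_mul_monomial]
            rw [Finset.sum_comm]
          simp only [mul_sub, Finset.sum_sub_distrib]
          rw [← h2]
          congr 1
          simp only [C_mul_monomial, mul_one]
          exact f.as_sum
        rw [h1]
        refine Ideal.sum_mem _ fun m hm => Ideal.mul_mem_left _ _ (hK m ?_)
        exact hf (mem_support_iff.mp hm)
      have h1 := hsum I.1 (fun m hm => by
        have := hcI m (by rw [hm]; exact hD)
        rwa [hm] at this)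
      have h2 : lc (a D) ctot ∈ I.1 := by
        have := Ideal.sub_mem _ hfI h1
        rwa [sub_sub_cancel] at this
      have h3 := (ha D hD).indep _ h2
      have h4 := hsum _ hred
      rw [h3] at h4
      have h5 : lc (a D) (0 : Fin r → ℂ) = 0 := by simp [lc]
      rwa [h5, sub_zero] at h4
    · have := hfin D
      have hcard : genHF w r D = Nat.card {m : ι →₀ ℕ // Finsupp.weight w m = D} := by
        rw [genHF_eq]
        exact min_eq_right (le_of_not_ge hD)
      rw [eq_zero_of_card I.2 hcard hf hfI]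
      exact Ideal.zero_mem _
  · rw [hJ (Nat.zero_le r)]
    have h1 : fam w G (Nat.zero_le r) = ⊤ := by
      rw [fam, pIdeal_of_isEmpty]
      exact Ideal.comap_top
    rw [h1, Ideal.map_top]
  · intro k hk
    rw [hJ hk, hJ hk.le]
    apply Ideal.map_mono
    apply Ideal.comap_mono
    exact pIdeal_anti (yF (r := r) hk) (Fin.castLE (Nat.le_succ k))
  · intro k hk
    refine ⟨hilbMap (pi0 G : RT G →+* ℂ) ⟨fam w G hk, hfam hk⟩, ?_, ?_⟩
    · obtain ⟨𝔞, h𝔞⟩ := (isClosed_hilb_iff w).mp
        (@isClosed_closure _ (hilbTopology w (genHF w k)) (U k)) (RT G) ⟨fam w G hk, hfam hk⟩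
      rw [h𝔞]
      intro x hx
      have h1 : piR G x = 0 := by
        apply eq_zero_of_evG
        intro y hy
        have h2 : hilbMap (piY G y hy : RT G →+* ℂ) ⟨fam w G hk, hfam hk⟩ ∈ U k := by
          apply hU2 y hy k hk
          exact fam_map_piY hfin hG V hV hk hy
        exact (h𝔞 _).mp (@subset_closure _ (hilbTopology w (genHF w k)) _ _ h2) x hx
      have h2 : x = 0 := by
        apply piF_injective hG
        rw [map_zero]
        have : piF G x = toF _ (piR G x) := rfl
        rw [this, h1, map_zero]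
      rw [h2, map_zero]
    · rw [hJ hk]
      rfl

end

end Pool.Agent.SlipFlag
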