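import Mathlib

/-!
# Generic points: determinants of evaluation matrices
-/

open MvPolynomial

namespace Pool.Agent.SlipFlag

noncomputable section

variable {ι : Type}

/-- the value of the monomial `x^m` at the point `y` -/
def mv {E : Type} [CommRing E] (y : ι → E) (m : ι →₀ ℕ) : E := eval y (monomial m 1)

theorem mv_def {E : Type} [CommRing E] (y : ι → E) (m : ι →₀ ℕ) :
    mv y m = m.prod fun ρ e => y ρ ^ e := by
  rw [mv, eval_monomial, one_mul]

theorem map_mv {E E' : Type} [CommRing E] [CommRing E'] (φ : E →+* E') (y : ι → E)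
    (m : ι →₀ ℕ) : φ (mv y m) = mv (fun ρ => φ (y ρ)) m := by
  rw [mv_def, mv_def, map_finsuppProd]
  simp

/-- the evaluation matrix -/
def evMat {E : Type} [CommRing E] {k : ℕ} (y : Fin k → ι → E) (b : Fin k → (ι →₀ ℕ)) :
    Matrix (Fin k) (Fin k) E := Matrix.of fun i j => mv (y i) (b j)

theorem map_det_evMat {E E' : Type} [CommRing E] [CommRing E'] (φ : E →+* E') {k : ℕ}
    (y : Fin k → ι → E) (b : Fin k → (ι →₀ ℕ)) :
    φ (evMat y b).det = (evMat (fun i ρ => φ (y i ρ)) b).det := by
  rw [RingHom.map_det]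
  congr 1
  ext i j
  simp [evMat, map_mv]

/-- the generic points, over any coefficient ring -/
def genPt (R : Type) [CommRing R] {r k : ℕ} (hk : k ≤ r) : Fin k → ι → MvPolynomial (Fin r × ι) R :=
  fun i ρ => X (Fin.castLE hk i, ρ)

theorem mv_genPt {R : Type} [CommRing R] {r k : ℕ} (hk : k ≤ r) (i : Fin k) (m : ι →₀ ℕ) :
    mv (genPt R hk i) m = monomial (m.mapDomain (Prod.mk (Fin.castLE hk i))) 1 := by
  rw [mv_def, monomial_eq, C_1, one_mul, Finsupp.prod_mapDomain_index]
  · rfl
  · intro b; simp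
  · intro b m n; exact pow_add _ _ _

theorem det_genPt_ne_zero {R : Type} [CommRing R] [Nontrivial R] {r k : ℕ} (hk : k ≤ r)
    {b : Fin k → (ι →₀ ℕ)} (hb : Function.Injective b) :
    (evMat (genPt R hk) b).det ≠ 0 := by
  classical
  let e : Equiv.Perm (Fin k) → ((Fin r × ι) →₀ ℕ) := fun σ =>
    ∑ i, (b i).mapDomain (Prod.mk (Fin.castLE hk (σ i)))
  have hval : ∀ σ : Equiv.Perm (Fin k), ∀ i ρ, e σ (Fin.castLE hk i, ρ) = b (σ⁻¹ i) ρ := by
    intro σ i ρ
    simp only [e, Finsupp.finsetSum_apply]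
    rw [Finset.sum_eq_single (σ⁻¹ i)]
    · rw [show σ (σ⁻¹ i) = i from σ.apply_symm_apply i]
      exact Finsupp.mapDomain_apply (Prod.mk_right_injective _) _ _
    · intro j _ hj
      apply Finsupp.mapDomain_of_notMem_range
      rintro ⟨ρ', hρ'⟩
      apply hj
      have h1 : Fin.castLE hk (σ j) = Fin.castLE hk i := congrArg Prod.fst hρ'
      have h2 : σ j = i := Fin.castLE_injective hk h1
      rw [← h2]; exact (σ.symm_apply_apply j).symm
    · intro h; exact absurd (Finset.mem_univ _) h
  have hinj : ∀ σ, e σ = e 1 → σ = 1 := by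
    intro σ h
    have h1 : ∀ i, σ⁻¹ i = i := by
      intro i
      apply hb
      ext ρ
      have := DFunLike.congr_fun h (Fin.castLE hk i, ρ)
      rw [hval, hval] at this
      simpa using this
    have h2 : σ⁻¹ = 1 := Equiv.ext h1
    exact inv_eq_one.mp h2
  have hdet : (evMat (genPt R hk) b).det =
      ∑ σ : Equiv.Perm (Fin k), Equiv.Perm.sign σ • (monomial (e σ) (1 : R)) := by
    rw [Matrix.det_apply]
    refine Finset.sum_congr rfl fun σ _ => ?_
    congr 1
    simp only [evMat, Matrix.of_apply, mv_genPt]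
    rw [← monomial_sum_one]
  intro h0
  have h1 := congrArg (coeff (e 1)) (hdet.symm.trans h0)
  rw [coeff_sum, coeff_zero, Finset.sum_eq_single 1] at h1
  · simp at h1
  · intro σ _ hσ
    have : e σ ≠ e 1 := fun h => hσ (hinj σ h)
    rw [coeff_smul, coeff_monomial, if_neg this, smul_zero]
  · intro h; exact absurd (Finset.mem_univ _) h

theorem countable_mv (κ : Type) [Finite κ] : Countable (MvPolynomial κ ℤ) := by
  have : Countable ((κ →₀ ℕ) →₀ ℤ) := inferInstance
  have hinj : Function.Injective (fun p : MvPolynomial κ ℤ =>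
      (Finsupp.onFinset p.support (fun m => coeff m p)
        (fun m hm => mem_support_iff.mpr hm) : (κ →₀ ℕ) →₀ ℤ)) := by
    intro p q h
    ext m
    exact DFunLike.congr_fun h m
  exact hinj.countable

theorem dense_ne_zero {κ : Type} [Finite κ] (p : MvPolynomial κ ℂ) (hp : p ≠ 0) :
    Dense {y : κ → ℂ | eval y p ≠ 0} := by
  have h1 : {y : κ → ℂ | eval y p ≠ 0} = {y : κ → ℂ | eval y p = 0}ᶜ := rfl
  rw [h1, ← interior_eq_empty_iff_dense_compl, Set.eq_empty_iff_forall_notMem]
  intro y hy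
  apply hp
  obtain ⟨u, hu, hsub⟩ := (isOpen_pi_iff' (s := interior {y : κ → ℂ | eval y p = 0})).mp
    isOpen_interior y hy
  apply funext_set u
  · intro i
    have := (hu i).1.mem_nhds (hu i).2
    exact infinite_of_mem_nhds _ this
  · intro x hx
    rw [map_zero]
    have h2 : x ∈ {y : κ → ℂ | eval y p = 0} := interior_subset (hsub hx)
    exact h2

/-- points with coordinates algebraically independent over `ℤ` -/
def IsGen {κ : Type} (y : κ → ℂ) : Prop := ∀ q : MvPolynomial κ ℤ, q ≠ 0 → aeval y q ≠ 0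

theorem exists_isGen {κ : Type} [Finite κ] (p : MvPolynomial κ ℂ) (hp : p ≠ 0) :
    ∃ y : κ → ℂ, IsGen y ∧ eval y p ≠ 0 := by
  have := countable_mv κ
  let f : Option {q : MvPolynomial κ ℤ // q ≠ 0} → Set (κ → ℂ) := fun o =>
    o.elim {y | eval y p ≠ 0} (fun q => {y | eval y (map (Int.castRingHom ℂ) q.1) ≠ 0})
  have hne : ∀ q : MvPolynomial κ ℤ, q ≠ 0 → map (Int.castRingHom ℂ) q ≠ 0 := by
    intro q hq h
    apply hq
    apply map_injective (Int.castRingHom ℂ) (RingHom.injective_int _)
    rw [h, map_zero]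
  have hd : Dense (⋂ o, f o) := by
    apply dense_iInter_of_isOpen
    · rintro (_ | q)
      · exact isOpen_ne_fun (continuous_eval p) continuous_const
      · exact isOpen_ne_fun (continuous_eval _) continuous_const
    · rintro (_ | q)
      · exact dense_ne_zero p hp
      · exact dense_ne_zero _ (hne q.1 q.2)
  obtain ⟨y, hy⟩ := hd.nonempty
  rw [Set.mem_iInter] at hy
  refine ⟨y, fun q hq => ?_, hy none⟩
  have := hy (some ⟨q, hq⟩)
  intro h
  apply this
  rw [eval_map, ← h, aeval_def]
  rfl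

end

end Pool.Agent.SlipFlag
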