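import Mathlib

/-!
# The Haiman-Sturmfels multigraded Hilbert functor and its Zariski topology

`S = ℂ[x_i : i ∈ ι]` is graded by an abelian group `A` through `deg x_i = w i`.
-/

open MvPolynomial TensorProduct

namespace Pool.Agent.SlipFlag

noncomputable section

section Hilb

variable {ι A : Type} [AddCommGroup A] (w : ι → A)

/-- The ideal `J` of the polynomial ring `R[x_i]` is homogeneous for the grading `deg x_i = w i`. -/
def IsHomog {R : Type} [CommRing R] (J : Ideal (MvPolynomial ι R)) : Prop :=
  ∀ f ∈ J, ∀ D : A, weightedHomogeneousComponent w D f ∈ J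

/-- The degree `D` part `J_D` of an ideal `J`, as a submodule of the degree `D` part
`(R[x])_D` of the polynomial ring. -/
def piece {R : Type} [CommRing R] (J : Ideal (MvPolynomial ι R)) (D : A) :
    Submodule R (weightedHomogeneousSubmodule R w D) :=
  (J.restrictScalars R).comap (weightedHomogeneousSubmodule R w D).subtype

/-- The Haiman-Sturmfels Hilbert functor: for a commutative ring `R`, the set of homogeneous ideals
`J` of `R[x]` such that `(R[x]/J)_D` is a locally free `R`-module of (finite constant) rank `h D`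
for every degree `D`. -/
def Hilb (h : A → ℕ) (R : Type) [CommRing R] : Set (Ideal (MvPolynomial ι R)) :=
  {J | IsHomog w J ∧ ∀ D : A,
    Module.Finite R (weightedHomogeneousSubmodule R w D ⧸ piece w J D) ∧
    Module.Projective R (weightedHomogeneousSubmodule R w D ⧸ piece w J D) ∧
    ∀ p : PrimeSpectrum R,
      Module.rankAtStalk (weightedHomogeneousSubmodule R w D ⧸ piece w J D) p = h D}

variable {w}

theorem mem_piece {R : Type} [CommRing R] {J : Ideal (MvPolynomial ι R)} {D : A}
    {f : weightedHomogeneousSubmodule R w D} : f ∈ piece w J D ↔ (f : MvPolynomial ι R) ∈ J :=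
  Iff.rfl

theorem isWeightedHomogeneous_map {R R' : Type} [CommRing R] [CommRing R'] (φ : R →+* R')
    {f : MvPolynomial ι R} {D : A} (hf : f.IsWeightedHomogeneous w D) :
    (MvPolynomial.map φ f).IsWeightedHomogeneous w D := by
  intro d hd
  apply hf
  intro h0
  apply hd
  rw [coeff_map, h0, map_zero]

theorem component_map {R R' : Type} [CommRing R] [CommRing R'] (φ : R →+* R')
    (f : MvPolynomial ι R) (D : A) :
    weightedHomogeneousComponent w D (MvPolynomial.map φ f) =
      MvPolynomial.map φ (weightedHomogeneousComponent w D f) := by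
  classical
  ext d
  rw [coeff_weightedHomogeneousComponent, coeff_map, coeff_map, coeff_weightedHomogeneousComponent]
  split_ifs <;> simp

/-- membership in a homogeneous ideal can be tested on homogeneous components -/
theorem IsHomog.mem_iff {R : Type} [CommRing R] {J : Ideal (MvPolynomial ι R)} (hJ : IsHomog w J)
    {f : MvPolynomial ι R} : f ∈ J ↔ ∀ D, weightedHomogeneousComponent w D f ∈ J := by
  constructor
  · exact fun h => hJ f h
  · intro h
    rw [← sum_weightedHomogeneousComponent w f]
    rw [finsum_eq_sum _ (weightedHomogeneousComponent_finsupp f)]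
    exact Ideal.sum_mem _ fun D _ => h D

/-- inclusion between ideals, the first one homogeneous, can be tested on homogeneous elements -/
theorem IsHomog.le_of {R : Type} [CommRing R] {J J' : Ideal (MvPolynomial ι R)}
    (hJ : IsHomog w J)
    (h : ∀ D, ∀ f : MvPolynomial ι R, f.IsWeightedHomogeneous w D → f ∈ J → f ∈ J') : J ≤ J' := by
  intro f hf
  rw [← sum_weightedHomogeneousComponent w f]
  rw [finsum_eq_sum _ (weightedHomogeneousComponent_finsupp f)]
  exact Ideal.sum_mem _ fun D _ =>
    h D _ (weightedHomogeneousComponent_isWeightedHomogeneous D f) (hJ f hf D)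

/-- an ideal spanned by homogeneous elements is homogeneous -/
theorem isHomog_span {R : Type} [CommRing R] {s : Set (MvPolynomial ι R)}
    (hs : ∀ f ∈ s, ∃ D, f.IsWeightedHomogeneous w D) : IsHomog w (Ideal.span s) := by
  classical
  intro f hf D
  let _ := MvPolynomial.weightedGradedAlgebra R w
  have h1 : (Ideal.span s).IsHomogeneous (weightedHomogeneousSubmodule R w) :=
    Ideal.homogeneous_span _ _ fun x hx => by
      obtain ⟨D, hD⟩ := hs x hx
      exact ⟨D, hD⟩
  exact weightedHomogeneousComponent_mem_of_mem R w h1 hf D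

/-- a homogeneous ideal is spanned by its homogeneous elements -/
theorem IsHomog.eq_span {R : Type} [CommRing R] {J : Ideal (MvPolynomial ι R)}
    (hJ : IsHomog w J) : J = Ideal.span {f | f ∈ J ∧ ∃ D, f.IsWeightedHomogeneous w D} := by
  apply le_antisymm
  · exact hJ.le_of fun D f hf hfJ => Ideal.subset_span ⟨hfJ, D, hf⟩
  · rw [Ideal.span_le]
    exact fun f hf => hf.1

theorem IsHomog.map {R R' : Type} [CommRing R] [CommRing R'] (φ : R →+* R')
    {J : Ideal (MvPolynomial ι R)} (hJ : IsHomog w J) :
    IsHomog w (J.map (MvPolynomial.map φ)) := by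
  rw [hJ.eq_span, Ideal.map_span]
  apply isHomog_span
  rintro _ ⟨f, ⟨_, D, hf⟩, rfl⟩
  exact ⟨D, isWeightedHomogeneous_map φ hf⟩

theorem IsHomog.comap {R R' : Type} [CommRing R] [CommRing R'] (φ : R →+* R')
    {J : Ideal (MvPolynomial ι R')} (hJ : IsHomog w J) :
    IsHomog w (J.comap (MvPolynomial.map φ)) := by
  intro f hf D
  rw [Ideal.mem_comap] at hf ⊢
  rw [← component_map]
  exact hJ _ hf D

/-- the degree `D` part of the extension of a homogeneous ideal -/
theorem IsHomog.mem_map_iff {R R' : Type} [CommRing R] [CommRing R'] (φ : R →+* R')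
    {J : Ideal (MvPolynomial ι R)} (hJ : IsHomog w J) {D : A} {f : MvPolynomial ι R'}
    (hf : f.IsWeightedHomogeneous w D) :
    f ∈ J.map (MvPolynomial.map φ) ↔
      f ∈ Submodule.span R' (MvPolynomial.map φ '' {g | g ∈ J ∧ g.IsWeightedHomogeneous w D}) := by
  classical
  constructor
  · intro h
    -- the component map sends the ideal into the span
    have key : ∀ g ∈ J.map (MvPolynomial.map φ), weightedHomogeneousComponent w D g ∈
        Submodule.span R' (MvPolynomial.map φ '' {g | g ∈ J ∧ g.IsWeightedHomogeneous w D}) := by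
      intro g hg
      have hg' : g ∈ Submodule.span R'
          (MvPolynomial.map φ '' {g | g ∈ J}) := by
        rw [Ideal.map, Ideal.span] at hg
        have h2 := Submodule.span_induction (p := fun x _ => x ∈ Submodule.span R'
          (MvPolynomial.map φ '' {g | g ∈ J})) (fun x hx => Submodule.subset_span hx)
          (Submodule.zero_mem _) (fun x y _ _ hx hy => Submodule.add_mem _ hx hy) ?_ hg
        · exact h2
        · intro a x _ hx
          induction a using MvPolynomial.induction_on' with
          | add p q hp hq =>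
            rw [add_smul]
            exact Submodule.add_mem _ hp hq
          | monomial m c =>
            refine Submodule.span_induction (p := fun x _ => (monomial m c) • x ∈
              Submodule.span R' (MvPolynomial.map φ '' {g | g ∈ J})) ?_ ?_ ?_ ?_ hx
            · rintro _ ⟨g, hg, rfl⟩
              have : (monomial m c : MvPolynomial ι R') • (MvPolynomial.map φ g) =
                  c • MvPolynomial.map φ (monomial m 1 * g) := by
                rw [map_mul, map_monomial, map_one, smul_eq_mul, ← smul_mul_assoc, smul_monomial,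
                  smul_eq_mul, mul_one]
              rw [this]
              exact Submodule.smul_mem _ _
                (Submodule.subset_span ⟨_, Ideal.mul_mem_left _ _ hg, rfl⟩)
            · rw [smul_zero]; exact Submodule.zero_mem _
            · intro x y _ _ hx hy
              rw [smul_add]
              exact Submodule.add_mem _ hx hy
            · intro a x _ hx
              rw [smul_comm]
              exact Submodule.smul_mem _ _ hx
      refine Submodule.span_induction (p := fun x _ => weightedHomogeneousComponent w D x ∈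
        Submodule.span R' (MvPolynomial.map φ '' {g | g ∈ J ∧ g.IsWeightedHomogeneous w D}))
        ?_ ?_ ?_ ?_ hg'
      · rintro _ ⟨g, hg, rfl⟩
        rw [component_map]
        exact Submodule.subset_span
          ⟨_, ⟨hJ g hg D, weightedHomogeneousComponent_isWeightedHomogeneous D g⟩, rfl⟩
      · rw [map_zero]; exact Submodule.zero_mem _
      · intro x y _ _ hx hy
        rw [map_add]
        exact Submodule.add_mem _ hx hy
      · intro a x _ hx
        rw [map_smul]
        exact Submodule.smul_mem _ _ hx
    have := key f h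
    rwa [hf.weightedHomogeneousComponent_same] at this
  · intro h
    refine Submodule.span_induction (p := fun x _ => x ∈ J.map (MvPolynomial.map φ))
      ?_ ?_ ?_ ?_ h
    · rintro _ ⟨g, ⟨hg, _⟩, rfl⟩
      exact Ideal.mem_map_of_mem _ hg
    · exact Ideal.zero_mem _
    · intro x y _ _ hx hy
      exact Ideal.add_mem _ hx hy
    · intro a x _ hx
      rw [smul_eq_C_mul]
      exact Ideal.mul_mem_left _ _ hx

variable (w)

/-- the monomial `x^m`, `deg x^m = D`, as an element of the degree `D` part -/
def monoD (R : Type) [CommRing R] (D : A) (m : {m : ι →₀ ℕ // Finsupp.weight w m = D}) :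
    weightedHomogeneousSubmodule R w D :=
  ⟨monomial m.1 1, isWeightedHomogeneous_monomial w m.1 1 m.2⟩

/-- the monomial basis of the degree `D` part -/
def basisD (R : Type) [CommRing R] (D : A) :
    Module.Basis {m : ι →₀ ℕ // Finsupp.weight w m = D} R (weightedHomogeneousSubmodule R w D) :=
  Module.Basis.mk (v := monoD w R D)
    (by
      apply LinearIndependent.of_comp (weightedHomogeneousSubmodule R w D).subtype
      have h := (basisMonomials ι R).linearIndependent.comp
        (fun m : {m : ι →₀ ℕ // Finsupp.weight w m = D} => m.1) Subtype.val_injective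
      convert h using 1
      funext m
      simp [monoD])
    (by
      rintro ⟨f, hf⟩ _
      have h1 : (⟨f, hf⟩ : weightedHomogeneousSubmodule R w D) =
          ∑ m : f.support, coeff m.1 f • monoD w R D ⟨m.1, hf (mem_support_iff.mp m.2)⟩ := by
        apply Subtype.ext
        rw [AddSubmonoidClass.coe_finsetSum]
        simp only [Submodule.coe_smul, monoD, smul_monomial, smul_eq_mul, mul_one]
        rw [Finset.sum_coe_sort f.support (fun m => monomial m (coeff m f))]
        exact f.as_sum
      rw [h1]
      exact Submodule.sum_mem _ fun m _ => Submodule.smul_mem _ _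
        (Submodule.subset_span ⟨_, rfl⟩))

theorem basisD_apply (R : Type) [CommRing R] (D : A) (m) : basisD w R D m = monoD w R D m := by
  rw [basisD, Module.Basis.mk_apply]

variable {w}

/-- the map induced on degree `D` parts by a ring homomorphism -/
def mapD {R R' : Type} [CommRing R] [CommRing R'] [Algebra R R'] (D : A) :
    weightedHomogeneousSubmodule R w D →ₗ[R] weightedHomogeneousSubmodule R' w D where
  toFun f := ⟨MvPolynomial.map (algebraMap R R') f.1, isWeightedHomogeneous_map _ f.2⟩
  map_add' f g := by ext1; simp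
  map_smul' a f := by
    ext1
    simp [Algebra.smul_def]

theorem mapD_isBaseChange {R R' : Type} [CommRing R] [CommRing R'] [Algebra R R'] (D : A) :
    IsBaseChange R' (mapD (w := w) (R := R) (R' := R') D) := by
  have h1 : IsBaseChange R' (Finsupp.mapRange.linearMap
      (α := {m : ι →₀ ℕ // Finsupp.weight w m = D}) (Algebra.linearMap R R')) :=
    (IsBaseChange.linearMap R R').finsuppPow _
  refine (IsBaseChange.iff_of_equiv_comm (basisD w R D).repr.symm
    (basisD w R' D).repr.symm ?_).mp h1
  apply Finsupp.lhom_ext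
  intro m a
  ext1
  simp only [LinearMap.coe_comp, LinearEquiv.coe_coe, Function.comp_apply,
    Module.Basis.repr_symm_single, basisD_apply, monoD, mapD,
    LinearMap.coe_mk, AddHom.coe_mk, Finsupp.mapRange.linearMap_apply, Finsupp.mapRange_single,
    Submodule.coe_smul, smul_monomial, map_monomial, Algebra.linearMap_apply,
    smul_eq_mul, mul_one, LinearEquiv.restrictScalars_apply]

theorem quot_isBaseChange {R R' M M' : Type} [CommRing R] [CommRing R'] [Algebra R R']
    [AddCommGroup M] [Module R M] [AddCommGroup M'] [Module R M'] [Module R' M']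
    [IsScalarTower R R' M'] (f : M →ₗ[R] M') (hf : IsBaseChange R' f) (N : Submodule R M)
    (N' : Submodule R' M') (hN : N' = Submodule.span R' (f '' N)) :
    ∃ g : (M ⧸ N) →ₗ[R] (M' ⧸ N'), IsBaseChange R' g := by
  have hle : ∀ x ∈ N, f x ∈ N' := by
    intro x hx
    rw [hN]
    exact Submodule.subset_span ⟨x, hx, rfl⟩
  let g : (M ⧸ N) →ₗ[R] (M' ⧸ N') :=
    N.liftQ ((N'.mkQ.restrictScalars R).comp f) (by
      intro x hx
      rw [LinearMap.mem_ker]
      simp only [LinearMap.coe_comp, LinearMap.coe_restrictScalars, Function.comp_apply]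
      rw [Submodule.mkQ_apply, Submodule.Quotient.mk_eq_zero]
      exact hle x hx)
  let k : R' ⊗[R] N →ₗ[R'] M' := hf.equiv.toLinearMap ∘ₗ (N.subtype.baseChange R')
  have hk : LinearMap.range k = N' := by
    apply le_antisymm
    · rintro _ ⟨x, rfl⟩
      induction x with
      | zero => rw [map_zero]; exact Submodule.zero_mem _
      | add x y hx hy => rw [map_add]; exact Submodule.add_mem _ hx hy
      | tmul a x =>
        simp only [k, LinearMap.coe_comp, LinearEquiv.coe_coe, Function.comp_apply,
          LinearMap.baseChange_tmul, Submodule.subtype_apply, IsBaseChange.equiv_tmul]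
        exact Submodule.smul_mem _ _ (hle _ x.2)
    · rw [hN, Submodule.span_le]
      rintro _ ⟨x, hx, rfl⟩
      refine ⟨1 ⊗ₜ ⟨x, hx⟩, ?_⟩
      simp only [k, LinearMap.coe_comp, LinearEquiv.coe_coe, Function.comp_apply,
          LinearMap.baseChange_tmul, Submodule.subtype_apply, IsBaseChange.equiv_tmul, one_smul]
  refine ⟨g, ?_⟩
  refine IsBaseChange.of_right_exact R' (TensorProduct.mk R R' N 1)
      f g (f := N.subtype) (g := N.mkQ) (f' := k)
      (g' := N'.mkQ) ?_ ?_ (TensorProduct.isBaseChange R N R') hf ?_ ?_ ?_ ?_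
  · ext1 x
    simp only [k, LinearMap.coe_comp, LinearEquiv.coe_coe, Function.comp_apply,
        LinearMap.coe_restrictScalars, TensorProduct.mk_apply,
        LinearMap.baseChange_tmul, Submodule.subtype_apply, IsBaseChange.equiv_tmul, one_smul]
  · ext1 x
    rfl
  · rw [LinearMap.exact_iff, Submodule.ker_mkQ, Submodule.range_subtype]
  · exact N.mkQ_surjective
  · rw [LinearMap.exact_iff, Submodule.ker_mkQ, hk]
  · exact N'.mkQ_surjective

/-- Base change for the Hilbert functor: `J` goes to the extended ideal. -/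
theorem map_mem_hilb {h : A → ℕ} {R R' : Type} [CommRing R] [CommRing R'] (φ : R →+* R')
    {J : Ideal (MvPolynomial ι R)} (hJ : J ∈ Hilb w h R) :
    J.map (MvPolynomial.map φ) ∈ Hilb w h R' := by
  obtain ⟨hhom, hJ⟩ := hJ
  refine ⟨hhom.map φ, fun D => ?_⟩
  obtain ⟨hfin, hproj, hrank⟩ := hJ D
  let _ : Algebra R R' := φ.toAlgebra
  obtain ⟨g, hbc⟩ := quot_isBaseChange (mapD (w := w) (R := R) (R' := R') D)
    (mapD_isBaseChange D) (piece w J D) (piece w (J.map (MvPolynomial.map φ)) D) (by
      apply le_antisymm
      · intro f hf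
        have h1 := (hhom.mem_map_iff φ f.2).mp hf
        have h2 : ∀ x ∈ Submodule.span R' (MvPolynomial.map φ ''
            {g | g ∈ J ∧ g.IsWeightedHomogeneous w D}),
            ∃ y ∈ Submodule.span R' (mapD (w := w) (R := R) (R' := R') D ''
              (piece w J D : Set (weightedHomogeneousSubmodule R w D))),
              (y : MvPolynomial ι R') = x := by
          intro x hx
          refine Submodule.span_induction (p := fun x _ => ∃ y ∈ Submodule.span R'
            (mapD (w := w) (R := R) (R' := R') D ''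
              (piece w J D : Set (weightedHomogeneousSubmodule R w D))),
            (y : MvPolynomial ι R') = x) ?_ ?_ ?_ ?_ hx
          · rintro _ ⟨g, ⟨hg, hgD⟩, rfl⟩
            exact ⟨mapD (R' := R') D ⟨g, hgD⟩, Submodule.subset_span ⟨⟨g, hgD⟩, hg, rfl⟩, rfl⟩
          · exact ⟨0, Submodule.zero_mem _, rfl⟩
          · rintro x y _ _ ⟨x', hx', rfl⟩ ⟨y', hy', rfl⟩
            exact ⟨x' + y', Submodule.add_mem _ hx' hy', rfl⟩
          · rintro a x _ ⟨x', hx', rfl⟩
            exact ⟨a • x', Submodule.smul_mem _ _ hx', rfl⟩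
        obtain ⟨y, hy, hyf⟩ := h2 _ h1
        rwa [← Subtype.ext hyf]
      · rw [Submodule.span_le]
        rintro _ ⟨x, hx, rfl⟩
        exact Ideal.mem_map_of_mem (MvPolynomial.map φ) hx)
  refine ⟨?_, ?_, ?_⟩
  · exact Module.Finite.equiv hbc.equiv
  · exact Module.Projective.of_equiv hbc.equiv
  · intro p
    rw [Module.rankAtStalk_isBaseChange hbc]
    exact hrank _

/-- The functoriality of `R ↦ Hilb w h R`: base change of a family of ideals. -/
def hilbMap {h : A → ℕ} {R R' : Type} [CommRing R] [CommRing R'] (φ : R →+* R')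
    (J : Hilb w h R) : Hilb w h R' :=
  ⟨J.1.map (MvPolynomial.map φ), map_mem_hilb φ J.2⟩

theorem coe_hilbMap {h : A → ℕ} {R R' : Type} [CommRing R] [CommRing R'] (φ : R →+* R')
    (J : Hilb w h R) : (hilbMap φ J : Ideal (MvPolynomial ι R')) =
      J.1.map (MvPolynomial.map φ) := rfl

/-- A set `W` of `ℂ`-points of the Hilbert functor is Zariski closed if for every family
`J ∈ Hilb w h R` over a `ℂ`-algebra `R` (i.e. for every morphism from `Spec R` to the
multigraded Hilbert scheme) the set of `ℂ`-points of `Spec R` whose fibre is in `W` is the zero set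
of an ideal `𝔞` of `R`.  -/
def IsZariskiClosed {h : A → ℕ} (W : Set (Hilb w h ℂ)) : Prop :=
  ∀ (R : Type) [CommRing R] [Algebra ℂ R] (J : Hilb w h R), ∃ 𝔞 : Ideal R,
    ∀ φ : R →ₐ[ℂ] ℂ, hilbMap (φ : R →+* ℂ) J ∈ W ↔ ∀ a ∈ 𝔞, φ a = 0

variable (w)

/-- The Zariski topology on the set of `ℂ`-points of the multigraded Hilbert scheme. -/
@[instance_reducible]
def hilbTopology (h : A → ℕ) : TopologicalSpace (Hilb w h ℂ) :=
  TopologicalSpace.ofClosed {W | IsZariskiClosed W}
    (by
      intro R _ _ J
      refine ⟨⊤, fun φ => ?_⟩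
      simp only [Set.mem_empty_iff_false, false_iff, not_forall]
      exact ⟨1, Submodule.mem_top, by simp⟩)
    (by
      intro T hT R _ _ J
      choose! 𝔞 h𝔞 using fun W (hW : W ∈ T) => hT hW R J
      refine ⟨⨆ W ∈ T, 𝔞 W, fun φ => ?_⟩
      have h1 : (∀ a ∈ ⨆ W ∈ T, 𝔞 W, φ a = 0) ↔
          (⨆ W ∈ T, 𝔞 W) ≤ RingHom.ker (φ : R →+* ℂ) := Iff.rfl
      rw [h1, iSup₂_le_iff, Set.mem_sInter]
      exact forall₂_congr fun W hW => h𝔞 W hW φ)
    (by
      intro W₁ hW₁ W₂ hW₂ R _ _ J
      obtain ⟨𝔞₁, h₁⟩ := hW₁ R J
      obtain ⟨𝔞₂, h₂⟩ := hW₂ R J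
      refine ⟨𝔞₁ * 𝔞₂, fun φ => ?_⟩
      have h3 : (∀ a ∈ 𝔞₁ * 𝔞₂, φ a = 0) ↔ 𝔞₁ * 𝔞₂ ≤ RingHom.ker (φ : R →+* ℂ) := Iff.rfl
      have h4 : (∀ a ∈ 𝔞₁, φ a = 0) ↔ 𝔞₁ ≤ RingHom.ker (φ : R →+* ℂ) := Iff.rfl
      have h5 : (∀ a ∈ 𝔞₂, φ a = 0) ↔ 𝔞₂ ≤ RingHom.ker (φ : R →+* ℂ) := Iff.rfl
      rw [h3, (RingHom.ker_isPrime (φ : R →+* ℂ)).mul_le, ← h4, ← h5, ← h₁, ← h₂]
      rfl)

theorem isClosed_hilb_iff {h : A → ℕ} {W : Set (Hilb w h ℂ)} :
    @IsClosed _ (hilbTopology w h) W ↔ IsZariskiClosed W := by
  rw [← @isOpen_compl_iff _ _ (hilbTopology w h)]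
  change Wᶜᶜ ∈ {W | IsZariskiClosed W} ↔ _
  rw [compl_compl]
  rfl

/-- Over a field the condition on `(K[x]/J)_D` is just `dim_K (K[x]/J)_D = h D`. -/
theorem mem_hilb_field_iff {h : A → ℕ} {K : Type} [Field K] {J : Ideal (MvPolynomial ι K)} :
    J ∈ Hilb w h K ↔ IsHomog w J ∧ ∀ D : A,
      Module.Finite K (weightedHomogeneousSubmodule K w D ⧸ piece w J D) ∧
      Module.finrank K (weightedHomogeneousSubmodule K w D ⧸ piece w J D) = h D := by
  refine and_congr_right fun _ => forall_congr' fun D => ?_
  constructor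
  · rintro ⟨h1, h2, h3⟩
    refine ⟨h1, ?_⟩
    have := h3 ⟨⊥, Ideal.isPrime_bot⟩
    rw [Module.rankAtStalk_eq_finrank_of_free] at this
    exact this
  · rintro ⟨h1, h2⟩
    refine ⟨h1, inferInstance, fun p => ?_⟩
    rw [Module.rankAtStalk_eq_finrank_of_free]
    exact h2

end Hilb

end

end Pool.Agent.SlipFlag
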