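import Pool.Agent.helper93.SlipHilb
import Pool.Agent.helper93.SlipGeneric

/-!
# Ideals of points, and a criterion for membership in the Hilbert functor
-/

open MvPolynomial

namespace Pool.Agent.SlipFlag

noncomputable section

variable {ι A : Type} [AddCommGroup A]

/-- The homogeneous ideal of a family of points `y i`: it is generated by the homogeneous
polynomials vanishing at all the `y i`. -/
def pIdeal (w : ι → A) {E : Type} [CommRing E] {s : Type} (y : s → ι → E) :
    Ideal (MvPolynomial ι E) :=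
  Ideal.span {f | (∃ D, f.IsWeightedHomogeneous w D) ∧ ∀ i, eval (y i) f = 0}

variable {w : ι → A}

theorem isHomog_pIdeal {E : Type} [CommRing E] {s : Type} (y : s → ι → E) :
    IsHomog w (pIdeal w y) :=
  isHomog_span fun _ hf => hf.1

theorem mem_pIdeal_iff {E : Type} [CommRing E] {s : Type} {y : s → ι → E}
    {f : MvPolynomial ι E} {D : A} (hf : f.IsWeightedHomogeneous w D) :
    f ∈ pIdeal w y ↔ ∀ i, eval (y i) f = 0 := by
  constructor
  · intro h i
    have hle : pIdeal w y ≤ RingHom.ker (eval (y i)) := by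
      rw [pIdeal, Ideal.span_le]
      intro g hg
      exact hg.2 i
    exact hle h
  · intro h
    exact Ideal.subset_span ⟨⟨D, hf⟩, h⟩

theorem pIdeal_anti {E : Type} [CommRing E] {s s' : Type} (y : s → ι → E) (g : s' → s) :
    pIdeal w y ≤ pIdeal w (fun i => y (g i)) := by
  apply Ideal.span_mono
  rintro f ⟨hf, h⟩
  exact ⟨hf, fun i => h (g i)⟩

theorem pIdeal_of_isEmpty {E : Type} [CommRing E] {s : Type} [IsEmpty s] (y : s → ι → E) :
    pIdeal w y = ⊤ := by
  rw [Ideal.eq_top_iff_one]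
  exact Ideal.subset_span ⟨⟨0, isWeightedHomogeneous_one E w⟩, fun i => isEmptyElim i⟩

/-- the combination `∑ c_j x^{b_j}` -/
def lc {R : Type} [CommRing R] {h : ℕ} (b : Fin h → (ι →₀ ℕ)) (c : Fin h → R) :
    MvPolynomial ι R := ∑ j, monomial (b j) (c j)

theorem lc_isWeightedHomogeneous {R : Type} [CommRing R] {h : ℕ} {b : Fin h → (ι →₀ ℕ)}
    {D : A} (hb : ∀ j, Finsupp.weight w (b j) = D) (c : Fin h → R) :
    (lc b c).IsWeightedHomogeneous w D :=
  IsWeightedHomogeneous.sum _ _ _ fun j _ => isWeightedHomogeneous_monomial w _ _ (hb j)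

theorem eval_lc {R : Type} [CommRing R] {h : ℕ} (b : Fin h → (ι →₀ ℕ)) (c : Fin h → R)
    (y : ι → R) : eval y (lc b c) = ∑ j, c j * mv y (b j) := by
  rw [lc, map_sum]
  refine Finset.sum_congr rfl fun j _ => ?_
  rw [mv, eval_monomial, eval_monomial, one_mul]

theorem map_lc {R R' : Type} [CommRing R] [CommRing R'] (φ : R →+* R') {h : ℕ}
    (b : Fin h → (ι →₀ ℕ)) (c : Fin h → R) :
    MvPolynomial.map φ (lc b c) = lc b (fun j => φ (c j)) := by
  rw [lc, map_sum, lc]
  simp

/-- `x^{b_1}, …, x^{b_h}` are monomials of degree `D` which form a basis of `(R[x]/J)_D` -/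
structure IsBasisAt (w : ι → A) {R : Type} [CommRing R] (J : Ideal (MvPolynomial ι R)) (D : A)
    {h : ℕ} (b : Fin h → (ι →₀ ℕ)) : Prop where
  deg : ∀ j, Finsupp.weight w (b j) = D
  span : ∀ m : ι →₀ ℕ, Finsupp.weight w m = D → ∃ c : Fin h → R, monomial m 1 - lc b c ∈ J
  indep : ∀ c : Fin h → R, lc b c ∈ J → c = 0

/-- the classes of the monomials in the quotient -/
def qv (w : ι → A) {R : Type} [CommRing R] (J : Ideal (MvPolynomial ι R)) (D : A)
    {h : ℕ} (b : Fin h → (ι →₀ ℕ)) (hb : ∀ j, Finsupp.weight w (b j) = D) (j : Fin h) :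
    weightedHomogeneousSubmodule R w D ⧸ piece w J D :=
  (piece w J D).mkQ (monoD w R D ⟨b j, hb j⟩)

theorem sum_qv {R : Type} [CommRing R] (J : Ideal (MvPolynomial ι R)) (D : A)
    {h : ℕ} (b : Fin h → (ι →₀ ℕ)) (hb : ∀ j, Finsupp.weight w (b j) = D) (c : Fin h → R) :
    ∑ j, c j • qv w J D b hb j =
      (piece w J D).mkQ ⟨lc b c, lc_isWeightedHomogeneous hb c⟩ := by
  simp only [qv, ← map_smul, ← map_sum]
  congr 1
  apply Subtype.ext
  rw [AddSubmonoidClass.coe_finsetSum]
  change _ = ∑ j, monomial (b j) (c j)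
  refine Finset.sum_congr rfl fun j _ => ?_
  simp [monoD, smul_monomial]

theorem span_monoD (R : Type) [CommRing R] (D : A) :
    Submodule.span R (Set.range (monoD w R D)) = ⊤ := by
  have h1 := (basisD w R D).span_eq
  have h2 : (⇑(basisD w R D)) = monoD w R D := funext (basisD_apply w R D)
  rwa [h2] at h1

theorem span_qv_eq_top {R : Type} [CommRing R] {J : Ideal (MvPolynomial ι R)} {D : A}
    {h : ℕ} {b : Fin h → (ι →₀ ℕ)} (hb : ∀ j, Finsupp.weight w (b j) = D)
    (hspan : ∀ m : ι →₀ ℕ, Finsupp.weight w m = D → ∃ c : Fin h → R, monomial m 1 - lc b c ∈ J) :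
    ⊤ ≤ Submodule.span R (Set.range (qv w J D b hb)) := by
  rw [← Submodule.range_mkQ (piece w J D), LinearMap.range_eq_map, ← span_monoD,
    Submodule.map_span, Submodule.span_le]
  rintro _ ⟨_, ⟨⟨m, hm⟩, rfl⟩, rfl⟩
  obtain ⟨c, hc⟩ := hspan m hm
  have h1 : (piece w J D).mkQ (monoD w R D ⟨m, hm⟩) = ∑ j, c j • qv w J D b hb j := by
    rw [sum_qv, ← sub_eq_zero, ← map_sub, Submodule.mkQ_apply, Submodule.Quotient.mk_eq_zero]
    exact hc
  rw [h1]
  exact Submodule.sum_mem _ fun j _ => Submodule.smul_mem _ _ (Submodule.subset_span ⟨j, rfl⟩)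

theorem linearIndependent_qv_iff {R : Type} [CommRing R] {J : Ideal (MvPolynomial ι R)} {D : A}
    {h : ℕ} {b : Fin h → (ι →₀ ℕ)} (hb : ∀ j, Finsupp.weight w (b j) = D) :
    LinearIndependent R (qv w J D b hb) ↔ ∀ c : Fin h → R, lc b c ∈ J → c = 0 := by
  rw [Fintype.linearIndependent_iff]
  refine forall_congr' fun c => ?_
  have h1 : ∑ j, c j • qv w J D b hb j = 0 ↔ lc b c ∈ J := by
    rw [sum_qv, Submodule.mkQ_apply, Submodule.Quotient.mk_eq_zero]
    rfl
  rw [h1]
  exact imp_congr_right fun _ => by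
    rw [funext_iff]
    rfl

/-- criterion for membership in the Hilbert functor -/
theorem mem_hilb_of_isBasisAt {h : A → ℕ} {R : Type} [CommRing R] {J : Ideal (MvPolynomial ι R)}
    (hJ : IsHomog w J) (hb : ∀ D, ∃ b : Fin (h D) → (ι →₀ ℕ), IsBasisAt w J D b) :
    J ∈ Hilb w h R := by
  refine ⟨hJ, fun D => ?_⟩
  obtain ⟨b, hb⟩ := hb D
  let B : Module.Basis (Fin (h D)) R (weightedHomogeneousSubmodule R w D ⧸ piece w J D) :=
    Module.Basis.mk ((linearIndependent_qv_iff hb.deg).mpr hb.indep)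
      (span_qv_eq_top hb.deg hb.span)
  have h1 : Module.Finite R (weightedHomogeneousSubmodule R w D ⧸ piece w J D) :=
    Module.Finite.of_basis B
  have h2 : Module.Free R (weightedHomogeneousSubmodule R w D ⧸ piece w J D) :=
    Module.Free.of_basis B
  refine ⟨h1, inferInstance, fun p => ?_⟩
  have : Nontrivial R := by
    refine ⟨⟨0, 1, fun h01 => p.isPrime.ne_top ?_⟩⟩
    rw [Ideal.eq_top_iff_one, ← h01]
    exact Ideal.zero_mem _
  rw [Module.rankAtStalk_eq_finrank_of_free]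
  change Module.finrank R _ = h D
  rw [Module.finrank_eq_card_basis B, Fintype.card_fin]

section Field

variable {K : Type} [Field K]

/-- monomials spanning `(K[x]/J)_D` whose number is the dimension are independent -/
theorem indep_of_span {h : A → ℕ} {J : Ideal (MvPolynomial ι K)} (hJ : J ∈ Hilb w h K) {D : A}
    {b : Fin (h D) → (ι →₀ ℕ)} (hb : ∀ j, Finsupp.weight w (b j) = D)
    (hspan : ∀ m : ι →₀ ℕ, Finsupp.weight w m = D →
      ∃ c : Fin (h D) → K, monomial m 1 - lc b c ∈ J) :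
    ∀ c : Fin (h D) → K, lc b c ∈ J → c = 0 := by
  rw [← linearIndependent_qv_iff hb]
  have h1 := ((mem_hilb_field_iff w).mp hJ).2 D
  apply linearIndependent_of_top_le_span_of_card_eq_finrank (span_qv_eq_top hb hspan)
  rw [h1.2, Fintype.card_fin]

/-- existence of monomial bases of `(K[x]/J)_D` -/
theorem exists_isBasisAt {h : A → ℕ} {J : Ideal (MvPolynomial ι K)} (hJ : J ∈ Hilb w h K) (D : A) :
    ∃ b : Fin (h D) → (ι →₀ ℕ), IsBasisAt w J D b := by
  have h1 := ((mem_hilb_field_iff w).mp hJ).2 D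
  obtain ⟨hfin, hrank⟩ := h1
  let v : {m : ι →₀ ℕ // Finsupp.weight w m = D} →
    (weightedHomogeneousSubmodule K w D ⧸ piece w J D) := fun m =>
      (piece w J D).mkQ (monoD w K D m)
  have hv : ⊤ ≤ Submodule.span K (Set.range v) := by
    rw [← Submodule.range_mkQ (piece w J D), LinearMap.range_eq_map, ← span_monoD,
      Submodule.map_span]
    apply Submodule.span_mono
    rintro _ ⟨_, ⟨m, rfl⟩, rfl⟩
    exact ⟨m, rfl⟩
  let B := Module.Basis.ofSpan hv
  have hcard := Module.finrank_eq_nat_card_basis B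
  have : Finite ((linearIndepOn_empty K id).extend (Set.empty_subset (Set.range v))) :=
    Module.Finite.finite_basis B
  rw [hrank] at hcard
  let e := (Finite.equivFinOfCardEq hcard.symm)
  let B' := B.reindex e
  have hB' : ∀ j, ∃ m, v m = B' j := by
    intro j
    have := Module.Basis.ofSpan_subset hv ⟨e.symm j, rfl⟩
    obtain ⟨m, hm⟩ := this
    refine ⟨m, ?_⟩
    rw [hm, Module.Basis.reindex_apply]
  choose m hm using hB'
  have hqv : qv w J D (fun j => (m j).1) (fun j => (m j).2) = B' := by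
    funext j
    exact hm j
  refine ⟨fun j => (m j).1, fun j => (m j).2, ?_, ?_⟩
  · intro m' hm'
    have h3 : v ⟨m', hm'⟩ ∈ Submodule.span K (Set.range B') := by
      rw [B'.span_eq]; exact Submodule.mem_top
    rw [← hqv, Submodule.mem_span_range_iff_exists_fun] at h3
    obtain ⟨c, hc⟩ := h3
    refine ⟨c, ?_⟩
    rw [sum_qv, eq_comm, ← sub_eq_zero] at hc
    have h4 : (piece w J D).mkQ (monoD w K D ⟨m', hm'⟩ - ⟨lc (fun j => (m j).1) c,
      lc_isWeightedHomogeneous (fun j => (m j).2) c⟩) = 0 := by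
        rw [map_sub]; exact hc
    rw [Submodule.mkQ_apply, Submodule.Quotient.mk_eq_zero] at h4
    exact h4
  · rw [← linearIndependent_qv_iff (fun j => (m j).2), hqv]
    exact B'.linearIndependent

/-- if all of `K[x]_D` has dimension `h D` then `J_D = 0` -/
theorem eq_zero_of_card {h : A → ℕ} {J : Ideal (MvPolynomial ι K)} (hJ : J ∈ Hilb w h K) {D : A}
    [Finite {m : ι →₀ ℕ // Finsupp.weight w m = D}]
    (hcard : h D = Nat.card {m : ι →₀ ℕ // Finsupp.weight w m = D}) {f : MvPolynomial ι K}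
    (hf : f.IsWeightedHomogeneous w D) (hfJ : f ∈ J) : f = 0 := by
  obtain ⟨hfin, hrank⟩ := ((mem_hilb_field_iff w).mp hJ).2 D
  have hfin' : Module.Finite K (weightedHomogeneousSubmodule K w D) :=
    Module.Finite.of_basis (basisD w K D)
  have h1 : Module.finrank K (weightedHomogeneousSubmodule K w D) =
      Module.finrank K (weightedHomogeneousSubmodule K w D ⧸ piece w J D) := by
    rw [hrank, hcard, Module.finrank_eq_nat_card_basis (basisD w K D)]
  have h2 : Function.Injective (piece w J D).mkQ :=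
    (LinearMap.injective_iff_surjective_of_finrank_eq_finrank h1).mpr (Submodule.mkQ_surjective _)
  have h3 : (piece w J D).mkQ ⟨f, hf⟩ = 0 := by
    rw [Submodule.mkQ_apply, Submodule.Quotient.mk_eq_zero]
    exact hfJ
  have h4 := h2 (h3.trans (map_zero _).symm)
  exact congrArg Subtype.val h4

/-- two comparable ideals with the same Hilbert function are equal -/
theorem eq_of_le_of_mem_hilb {h : A → ℕ} {J J' : Ideal (MvPolynomial ι K)} (hJ : J ∈ Hilb w h K)
    (hJ' : J' ∈ Hilb w h K) (hle : J ≤ J') : J = J' := by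
  apply le_antisymm hle
  apply hJ'.1.le_of
  intro D f hf hfJ
  obtain ⟨b, hb⟩ := exists_isBasisAt hJ D
  have hind : ∀ c : Fin (h D) → K, lc b c ∈ J' → c = 0 := by
    apply indep_of_span hJ' hb.deg
    intro m hm
    obtain ⟨c, hc⟩ := hb.span m hm
    exact ⟨c, hle hc⟩
  -- write `f` as a combination of the `b j` modulo `J`
  have h1 : (piece w J D).mkQ ⟨f, hf⟩ ∈ Submodule.span K (Set.range (qv w J D b hb.deg)) :=
    span_qv_eq_top hb.deg hb.span Submodule.mem_top
  rw [Submodule.mem_span_range_iff_exists_fun] at h1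
  obtain ⟨c, hc⟩ := h1
  rw [sum_qv, eq_comm, ← sub_eq_zero, ← map_sub, Submodule.mkQ_apply,
    Submodule.Quotient.mk_eq_zero] at hc
  have h2 : f - lc b c ∈ J := hc
  have h3 : lc b c ∈ J' := by
    have := Ideal.sub_mem _ hfJ (hle h2)
    rwa [sub_sub_cancel] at this
  rw [hind c h3] at h2
  have h4 : lc b (0 : Fin (h D) → K) = 0 := by simp [lc]
  rwa [h4, sub_zero] at h2

theorem indep_of_span' {h : A → ℕ} {J : Ideal (MvPolynomial ι K)} (hJ : J ∈ Hilb w h K) {D : A}
    {n : ℕ} (hn : h D = n) {b : Fin n → (ι →₀ ℕ)} (hb : ∀ j, Finsupp.weight w (b j) = D)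
    (hspan : ∀ m : ι →₀ ℕ, Finsupp.weight w m = D →
      ∃ c : Fin n → K, monomial m 1 - lc b c ∈ J) :
    ∀ c : Fin n → K, lc b c ∈ J → c = 0 := by
  subst hn
  exact indep_of_span hJ hb hspan

theorem exists_isBasisAt' {h : A → ℕ} {J : Ideal (MvPolynomial ι K)} (hJ : J ∈ Hilb w h K) (D : A)
    {n : ℕ} (hn : h D = n) : ∃ b : Fin n → (ι →₀ ℕ), IsBasisAt w J D b := by
  subst hn
  exact exists_isBasisAt hJ D

/-- the coefficients of the monomial `x^m` with respect to the monomials `x^{b_j}` on the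
points `y` (Cramer's rule) -/
def cf {k : ℕ} (y : Fin k → ι → K) (b : Fin k → (ι →₀ ℕ)) (m : ι →₀ ℕ) (j : Fin k) : K :=
  (evMat y (Function.update b j m)).det / (evMat y b).det

theorem cf_spec {k : ℕ} {y : Fin k → ι → K} {b : Fin k → (ι →₀ ℕ)} (hb : (evMat y b).det ≠ 0)
    (m : ι →₀ ℕ) (i : Fin k) : ∑ j, cf y b m j * mv (y i) (b j) = mv (y i) m := by
  have h1 := congrFun (Matrix.mulVec_cramer (evMat y b) (fun i => mv (y i) m)) i
  rw [Matrix.mulVec, dotProduct, Pi.smul_apply, smul_eq_mul] at h1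
  have h2 : ∀ j, (evMat y (Function.update b j m)).det =
      (evMat y b).cramer (fun i => mv (y i) m) j := by
    intro j
    rw [Matrix.cramer_apply]
    congr 1
    ext i l
    rw [Matrix.updateCol_apply]
    simp only [evMat, Matrix.of_apply, Function.update_apply]
    split_ifs <;> rfl
  have h3 : ∑ j, cf y b m j * mv (y i) (b j) = ((evMat y b).det)⁻¹ *
      ∑ j, evMat y b i j * (evMat y b).cramer (fun i => mv (y i) m) j := by
    rw [Finset.mul_sum]
    refine Finset.sum_congr rfl fun j _ => ?_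
    rw [cf, h2]
    simp only [evMat, Matrix.of_apply]
    ring
  rw [h3, h1, ← mul_assoc, inv_mul_cancel₀ hb, one_mul]

theorem eq_zero_of_sum_mv {k : ℕ} {y : Fin k → ι → K} {b : Fin k → (ι →₀ ℕ)}
    (hb : (evMat y b).det ≠ 0) {c : Fin k → K} (hc : ∀ i, ∑ j, c j * mv (y i) (b j) = 0) :
    c = 0 := by
  apply Matrix.eq_zero_of_mulVec_eq_zero hb
  funext i
  rw [Matrix.mulVec, dotProduct, Pi.zero_apply, ← hc i]
  refine Finset.sum_congr rfl fun j _ => ?_
  rw [mul_comm]
  rfl

theorem cf_unique {k : ℕ} {y : Fin k → ι → K} {b : Fin k → (ι →₀ ℕ)}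
    (hb : (evMat y b).det ≠ 0) {m : ι →₀ ℕ} {c : Fin k → K}
    (hc : ∀ i, ∑ j, c j * mv (y i) (b j) = mv (y i) m) : c = cf y b m := by
  rw [← sub_eq_zero]
  apply eq_zero_of_sum_mv hb
  intro i
  simp only [Pi.sub_apply, sub_mul, Finset.sum_sub_distrib]
  rw [hc i, cf_spec hb, sub_self]

theorem det_ne_zero_of_indep {k : ℕ} {y : Fin k → ι → K} {b : Fin k → (ι →₀ ℕ)}
    (h : ∀ c : Fin k → K, (∀ i, ∑ j, c j * mv (y i) (b j) = 0) → c = 0) :
    (evMat y b).det ≠ 0 := by
  intro h0
  obtain ⟨v, hv, hv0⟩ := Matrix.exists_mulVec_eq_zero_iff.mpr h0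
  apply hv
  apply h
  intro i
  have := congrFun hv0 i
  rw [Matrix.mulVec, dotProduct, Pi.zero_apply] at this
  rw [← this]
  refine Finset.sum_congr rfl fun j _ => ?_
  rw [mul_comm]
  rfl

theorem lc_mem_pIdeal_iff {k : ℕ} {s : Type} {y : s → ι → K} {b : Fin k → (ι →₀ ℕ)} {D : A}
    (hb : ∀ j, Finsupp.weight w (b j) = D) {c : Fin k → K} :
    lc b c ∈ pIdeal w y ↔ ∀ i, ∑ j, c j * mv (y i) (b j) = 0 := by
  rw [mem_pIdeal_iff (lc_isWeightedHomogeneous hb c)]
  exact forall_congr' fun i => by rw [eval_lc]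

theorem sub_lc_mem_pIdeal_iff {k : ℕ} {s : Type} {y : s → ι → K} {b : Fin k → (ι →₀ ℕ)} {D : A}
    (hb : ∀ j, Finsupp.weight w (b j) = D) {m : ι →₀ ℕ} (hm : Finsupp.weight w m = D)
    {c : Fin k → K} :
    monomial m 1 - lc b c ∈ pIdeal w y ↔ ∀ i, ∑ j, c j * mv (y i) (b j) = mv (y i) m := by
  rw [mem_pIdeal_iff ((isWeightedHomogeneous_monomial w _ _ hm).sub
    (lc_isWeightedHomogeneous hb c))]
  refine forall_congr' fun i => ?_
  rw [map_sub, eval_lc, sub_eq_zero, eq_comm]
  rfl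

/-- as many monomials as points, with nonzero determinant: they form a basis of the quotient -/
theorem isBasisAt_pIdeal {k : ℕ} {y : Fin k → ι → K} {b : Fin k → (ι →₀ ℕ)} {D : A}
    (hb : ∀ j, Finsupp.weight w (b j) = D) (hdet : (evMat y b).det ≠ 0) :
    IsBasisAt w (pIdeal w y) D b where
  deg := hb
  span m hm := ⟨cf y b m, (sub_lc_mem_pIdeal_iff hb hm).mpr fun i => cf_spec hdet m i⟩
  indep _ hc := eq_zero_of_sum_mv hdet ((lc_mem_pIdeal_iff hb).mp hc)

/-- all the monomials of degree `D`, at most as many as points -/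
theorem isBasisAt_pIdeal' {k n : ℕ} (hnk : n ≤ k) {y : Fin k → ι → K} {b : Fin n → (ι →₀ ℕ)}
    {D : A} (hb : ∀ j, Finsupp.weight w (b j) = D)
    (hsurj : ∀ m : ι →₀ ℕ, Finsupp.weight w m = D → ∃ j, b j = m)
    (hdet : (evMat (fun i => y (Fin.castLE hnk i)) b).det ≠ 0) :
    IsBasisAt w (pIdeal w y) D b where
  deg := hb
  span m hm := by
    obtain ⟨j, rfl⟩ := hsurj m hm
    refine ⟨Pi.single j 1, ?_⟩
    have : lc b (Pi.single j (1 : K)) = monomial (b j) 1 := by
      rw [lc, Finset.sum_eq_single j]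
      · rw [Pi.single_eq_same]
      · intro l _ hl
        rw [Pi.single_eq_of_ne hl, map_zero]
      · intro h; exact absurd (Finset.mem_univ _) h
    rw [this, sub_self]
    exact Ideal.zero_mem _
  indep _ hc := eq_zero_of_sum_mv hdet fun i => (lc_mem_pIdeal_iff hb).mp hc (Fin.castLE hnk i)

end Field

end

end Pool.Agent.SlipFlag
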