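import Mathlib

/-!
# Extension of places

A subalgebra `G` of `F × ℂ` (`F` a field over `ℂ`) which contains no `(0, a)` with `a ≠ 0` is the
graph of a `ℂ`-algebra homomorphism from a subalgebra of `F` to `ℂ`.  Every such graph
is contained in the graph of a homomorphism defined on a valuation subring of `F`.
-/

open Polynomial

namespace Pool.Agent.SlipFlag

noncomputable section

variable {F : Type} [Field F] [Algebra ℂ F]

/-- `G` is the graph of a (partially defined) homomorphism from `F` to `ℂ`. -/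
def IsGraph (G : Subalgebra ℂ (F × ℂ)) : Prop := ∀ a : ℂ, ((0 : F), a) ∈ G → a = 0

theorem IsGraph.eq_zero {G : Subalgebra ℂ (F × ℂ)} (hG : IsGraph G) {g : F × ℂ} (hg : g ∈ G)
    (h : g.1 = 0) : g.2 = 0 := by
  apply hG
  rw [← h]
  exact hg

/-- one step of the extension -/
theorem mem_of_maximal {G : Subalgebra ℂ (F × ℂ)} (hG : Maximal (fun G => IsGraph G) G)
    (x : F × ℂ) (hx : ∀ p : G[X], (aeval x p).1 = 0 → (aeval x p).2 = 0) : x ∈ G := by
  let G' : Subalgebra ℂ (F × ℂ) := (aeval (R := G) x).range.restrictScalars ℂ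
  have hG' : IsGraph G' := by
    rintro a ⟨p, hp⟩
    have h1 : aeval x p = (0, a) := hp
    have := hx p (by rw [h1])
    rwa [h1] at this
  have hle : G ≤ G' := by
    intro g hg
    exact ⟨C ⟨g, hg⟩, by simp⟩
  have h2 : G' ≤ G := hG.2 hG' hle
  exact h2 ⟨X, by simp⟩

theorem inv_mem_of_maximal {G : Subalgebra ℂ (F × ℂ)} (hG : Maximal (fun G => IsGraph G) G)
    {s : F} {a : ℂ} (hs : (s, a) ∈ G) (ha : a ≠ 0) : (s⁻¹, a⁻¹) ∈ G := by
  have hs0 : s ≠ 0 := by
    rintro rfl
    exact ha (hG.1 a hs)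
  let _ : Invertible ((s, a) : F × ℂ) :=
    ⟨(s⁻¹, a⁻¹), by ext <;> simp [hs0, ha], by ext <;> simp [hs0, ha]⟩
  have hinv : ⅟((s, a) : F × ℂ) = (s⁻¹, a⁻¹) := rfl
  apply mem_of_maximal hG
  intro p hp
  let _ : Invertible ((s⁻¹, a⁻¹) : F × ℂ) :=
    ⟨(s, a), by ext <;> simp [hs0, ha], by ext <;> simp [hs0, ha]⟩
  have hinv' : ⅟((s⁻¹, a⁻¹) : F × ℂ) = (s, a) := rfl
  have h1 := eval₂_reverse_mul_pow (algebraMap G (F × ℂ)) ((s⁻¹, a⁻¹) : F × ℂ) p
  rw [hinv'] at h1
  have h2 : eval₂ (algebraMap G (F × ℂ)) (s, a) (reverse p) ∈ G := by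
    have : eval₂ (algebraMap G (F × ℂ)) (s, a) (reverse p) =
        ((eval (⟨(s, a), hs⟩ : G) (reverse p) : G) : F × ℂ) := by
      have h3 := eval₂_at_apply (algebraMap G (F × ℂ)) (p := reverse p) (⟨(s, a), hs⟩ : G)
      exact h3
    rw [this]
    exact Subtype.property _
  rw [aeval_def] at hp ⊢
  rw [← h1] at hp ⊢
  have h4 : (eval₂ (algebraMap G (F × ℂ)) (s, a) (reverse p)).1 = 0 := by
    rw [Prod.fst_mul, Prod.pow_fst] at hp
    exact (mul_eq_zero.mp hp).resolve_right (pow_ne_zero _ (inv_ne_zero hs0))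
  have h5 := hG.1.eq_zero h2 h4
  rw [Prod.snd_mul, h5, zero_mul]

/-- first projection of a graph -/
def fstG (G : Subalgebra ℂ (F × ℂ)) : G →+* F := (RingHom.fst F ℂ).comp (algebraMap G (F × ℂ))

/-- second projection of a graph -/
def sndG (G : Subalgebra ℂ (F × ℂ)) : G →+* ℂ := (RingHom.snd F ℂ).comp (algebraMap G (F × ℂ))

theorem fstG_apply {G : Subalgebra ℂ (F × ℂ)} (g : G) : fstG G g = (g : F × ℂ).1 := rfl

theorem sndG_apply {G : Subalgebra ℂ (F × ℂ)} (g : G) : sndG G g = (g : F × ℂ).2 := rfl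

theorem sndG_surjective (G : Subalgebra ℂ (F × ℂ)) : Function.Surjective (sndG G) := by
  intro a
  exact ⟨algebraMap ℂ G a, rfl⟩

/-- if `x` is not in the domain of a maximal graph then it satisfies an equation
`p(x) = 0` with coefficients in the domain and `p` specialising to `1` -/
theorem exists_relation {G : Subalgebra ℂ (F × ℂ)} (hG : Maximal (fun G => IsGraph G) G)
    {x : F} (hx : ∀ a, (x, a) ∉ G) :
    ∃ p : G[X], eval₂ (fstG G) x p = 0 ∧ p.map (sndG G) = 1 := by
  set K : Ideal G[X] := RingHom.ker (eval₂RingHom (fstG G) x) with hK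
  set B : Ideal ℂ[X] := K.map (mapRingHom (sndG G)) with hB
  have hsurj : Function.Surjective (mapRingHom (sndG G)) :=
    map_surjective _ (sndG_surjective G)
  have hBtop : B = ⊤ := by
    by_contra hne
    obtain ⟨g, hg⟩ := (IsPrincipalIdealRing.principal B).principal
    have hg' : B = Ideal.span {g} := hg
    have hroot : ∃ α : ℂ, eval α g = 0 := by
      by_cases h0 : g = 0
      · exact ⟨0, by rw [h0, eval_zero]⟩
      · apply IsAlgClosed.exists_root
        intro hdeg
        apply hne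
        rw [hg', Ideal.span_singleton_eq_top]
        exact isUnit_iff_degree_eq_zero.mpr hdeg
    obtain ⟨α, hα⟩ := hroot
    apply hx α
    apply mem_of_maximal hG
    intro p hp
    have h1 : (aeval (x, α) p).1 = eval₂ (fstG G) x p := by
      have := hom_eval₂ p (algebraMap G (F × ℂ)) (RingHom.fst F ℂ) (x, α)
      exact this
    have h2 : (aeval (x, α) p).2 = eval α (p.map (sndG G)) := by
      have := hom_eval₂ p (algebraMap G (F × ℂ)) (RingHom.snd F ℂ) (x, α)
      rw [eval_map]
      exact this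
    rw [h1] at hp
    have h3 : p.map (sndG G) ∈ B := Ideal.mem_map_of_mem (mapRingHom (sndG G)) (by
      rw [hK, RingHom.mem_ker]
      exact hp)
    rw [hg', Ideal.mem_span_singleton] at h3
    obtain ⟨q, hq⟩ := h3
    rw [h2, hq, eval_mul, hα, zero_mul]
  have h1 : (1 : ℂ[X]) ∈ B := by rw [hBtop]; exact Submodule.mem_top
  rw [hB, Ideal.mem_map_iff_of_surjective _ hsurj] at h1
  obtain ⟨p, hp, hp1⟩ := h1
  exact ⟨p, hp, hp1⟩

theorem isUnit_iff_snd {G : Subalgebra ℂ (F × ℂ)} (hG : Maximal (fun G => IsGraph G) G) (g : G) :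
    IsUnit g ↔ sndG G g ≠ 0 := by
  constructor
  · intro h h0
    exact (h.map (sndG G)).ne_zero h0
  · intro h
    obtain ⟨⟨s, a⟩, hg⟩ := g
    have ha : a ≠ 0 := h
    have hs0 : s ≠ 0 := by
      rintro rfl
      exact ha (hG.1 a hg)
    rw [isUnit_iff_exists_inv]
    refine ⟨⟨(s⁻¹, a⁻¹), inv_mem_of_maximal hG hg ha⟩, ?_⟩
    apply Subtype.ext
    ext <;> simp [hs0, ha]

/-- **Extension of places.** -/
theorem exists_place (G₀ : Subalgebra ℂ (F × ℂ)) (h0 : IsGraph G₀) :
    ∃ (G : Subalgebra ℂ (F × ℂ)) (V : ValuationSubring F), G₀ ≤ G ∧ IsGraph G ∧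
      ∀ x ∈ V, ∃ a : ℂ, (x, a) ∈ G := by
  obtain ⟨G, hle, hG⟩ : ∃ G, G₀ ≤ G ∧ Maximal (fun G => IsGraph G) G := by
    refine zorn_le_nonempty₀ {G : Subalgebra ℂ (F × ℂ) | IsGraph G} ?_ G₀ h0
    intro c hc hchain y hy
    have hne : Nonempty c := ⟨⟨y, hy⟩⟩
    have hdir : Directed (· ≤ ·) (fun i : c => (i : Subalgebra ℂ (F × ℂ))) :=
      hchain.directed
    refine ⟨⨆ i : c, (i : Subalgebra ℂ (F × ℂ)), ?_, fun z hz => le_iSup
      (fun i : c => (i : Subalgebra ℂ (F × ℂ))) ⟨z, hz⟩⟩
    intro a ha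
    rw [← SetLike.mem_coe, Subalgebra.coe_iSup_of_directed hdir, Set.mem_iUnion] at ha
    obtain ⟨i, hi⟩ := ha
    exact hc i.2 a hi
  have hloc : IsLocalRing G := by
    have : IsLocalHom (sndG G) := ⟨fun g hg => (isUnit_iff_snd hG g).mpr hg.ne_zero⟩
    exact RingHom.domain_isLocalRing (sndG G)
  have hmax : IsMax (LocalSubring.range (fstG G)) := by
    intro B hB
    obtain ⟨hle', hlocal⟩ := hB
    suffices h : B.toSubring ≤ (LocalSubring.range (fstG G)).toSubring by
      have : B = LocalSubring.range (fstG G) :=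
        LocalSubring.toSubring_injective (le_antisymm h hle')
      exact this.le
    intro x hx
    by_contra hxG
    have hx' : ∀ a, (x, a) ∉ G := by
      intro a ha
      apply hxG
      rw [LocalSubring.range_toSubring]
      exact ⟨⟨(x, a), ha⟩, rfl⟩
    obtain ⟨p, hp, hp1⟩ := exists_relation hG hx'
    -- coefficients
    let j : G →+* B.toSubring := (Subring.inclusion hle').comp (fstG G).rangeRestrict
    have hj : B.toSubring.subtype.comp j = fstG G := by
      ext g
      rfl
    have hjloc : ∀ g : G, IsUnit (j g) → IsUnit g := by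
      intro g hg
      have h1 : IsUnit ((fstG G).rangeRestrict g) := hlocal.map_nonunit _ hg
      obtain ⟨⟨_, g', rfl⟩, hg'⟩ := isUnit_iff_exists_inv.mp h1
      have h2 : fstG G g * fstG G g' = 1 := congrArg Subtype.val hg'
      rw [isUnit_iff_snd hG]
      intro h3
      have h4 : ((g * g' - 1 : G) : F × ℂ).1 = 0 := by
        have : ((g * g' - 1 : G) : F × ℂ).1 = fstG G g * fstG G g' - 1 := rfl
        rw [this, h2, sub_self]
      have h5 := hG.1.eq_zero (g * g' - 1 : G).2 h4
      have h6 : ((g * g' - 1 : G) : F × ℂ).2 = sndG G g * sndG G g' - 1 := rfl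
      rw [h6, h3, zero_mul, zero_sub] at h5
      exact one_ne_zero (neg_eq_zero.mp h5)
    have hx0 : eval₂ j (⟨x, hx⟩ : B.toSubring) p = 0 := by
      apply Subtype.ext
      have h1 := hom_eval₂ p j B.toSubring.subtype (⟨x, hx⟩ : B.toSubring)
      rw [hj] at h1
      exact h1.trans hp
    let res := IsLocalRing.residue B.toSubring
    have hpc : p.map (res.comp j) = C (res (j (p.coeff 0))) := by
      ext i
      rw [coeff_map, coeff_C]
      split_ifs with hi
      · rw [hi]; rfl
      · have h1 : sndG G (p.coeff i) = 0 := by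
          rw [← coeff_map, hp1, coeff_one, if_neg hi]
        have h2 : ¬ IsUnit (p.coeff i) := by
          rw [isUnit_iff_snd hG, h1]
          simp
        have h3 : j (p.coeff i) ∈ IsLocalRing.maximalIdeal B.toSubring := by
          rw [IsLocalRing.mem_maximalIdeal]
          exact fun h => h2 (hjloc _ h)
        exact (IsLocalRing.residue_eq_zero_iff _).mpr h3
    have h1 : res (j (p.coeff 0)) = 0 := by
      have h2 := congrArg res hx0
      rw [map_zero, hom_eval₂, ← eval_map, hpc, eval_C] at h2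
      exact h2
    have h2 : IsUnit (p.coeff 0) := by
      rw [isUnit_iff_snd hG, ← coeff_map, hp1, coeff_one_zero]
      exact one_ne_zero
    have h3 : j (p.coeff 0) ∈ IsLocalRing.maximalIdeal B.toSubring :=
      (IsLocalRing.residue_eq_zero_iff _).mp h1
    rw [IsLocalRing.mem_maximalIdeal] at h3
    exact h3 (h2.map j)
  obtain ⟨V, hV⟩ := LocalSubring.exists_valuationRing_of_isMax hmax
  refine ⟨G, V, hle, hG.1, fun x hx => ?_⟩
  have h1 : x ∈ (LocalSubring.range (fstG G)).toSubring := by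
    rw [← hV]
    exact hx
  rw [LocalSubring.range_toSubring] at h1
  obtain ⟨g, hg⟩ := h1
  refine ⟨(g : F × ℂ).2, ?_⟩
  rw [← hg]
  exact g.2

end

end Pool.Agent.SlipFlag
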