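import Pool.Agent.helper93.SlipClosed
import Pool.Agent.helper93.SlipPlace

/-!
# The flag theorem for closures of sets of ideals of points
-/

open MvPolynomial

namespace Pool.Agent.SlipFlag

noncomputable section

variable {ι A : Type} [AddCommGroup A] (w : ι → A)

/-- the generic Hilbert function of `k` points -/
def genHF (k : ℕ) (D : A) : ℕ :=
  min k (Module.finrank ℂ (weightedHomogeneousSubmodule ℂ w D))

theorem genHF_eq (k : ℕ) (D : A) :
    genHF w k D = min k (Nat.card {m : ι →₀ ℕ // Finsupp.weight w m = D}) := by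
  rw [genHF, Module.finrank_eq_nat_card_basis (basisD w ℂ D)]

theorem eval_map_comm {E E' : Type} [CommRing E] [CommRing E'] (φ : E →+* E') (y : ι → E)
    (g : MvPolynomial ι E) : φ (eval y g) = eval (fun ρ => φ (y ρ)) (MvPolynomial.map φ g) := by
  induction g using MvPolynomial.induction_on with
  | C a => simp
  | add p q hp hq => simp [hp, hq]
  | mul_X p i hp => simp [hp]

variable {w}

/-- the denominators: nonzero polynomials with integer coefficients -/
def dens (κ : Type) : Submonoid (MvPolynomial κ ℂ) :=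
  (nonZeroDivisors (MvPolynomial κ ℤ)).map (MvPolynomial.map (Int.castRingHom ℂ))

theorem dens_le (κ : Type) : dens κ ≤ nonZeroDivisors (MvPolynomial κ ℂ) := by
  rintro _ ⟨q, hq, rfl⟩
  rw [mem_nonZeroDivisors_iff_ne_zero]
  intro h
  have hq' : q ≠ 0 := nonZeroDivisors.ne_zero hq
  apply hq'
  apply map_injective (Int.castRingHom ℂ) (RingHom.injective_int _)
  rw [map_zero]
  exact h

theorem isUnit_aeval_dens {κ : Type} {y : κ → ℂ} (hy : IsGen y) (q : dens κ) :
    IsUnit ((aeval y : MvPolynomial κ ℂ →ₐ[ℂ] ℂ) (q : MvPolynomial κ ℂ)) := by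
  obtain ⟨_, q, hq, rfl⟩ := q
  have hq' : q ≠ 0 := nonZeroDivisors.ne_zero hq
  rw [isUnit_iff_ne_zero]
  have h1 := hy q hq'
  change (aeval y) (MvPolynomial.map (Int.castRingHom ℂ) q) ≠ 0
  rw [aeval_def, eval₂_map]
  rw [aeval_def] at h1
  have : ((algebraMap ℂ ℂ).comp (Int.castRingHom ℂ)) = algebraMap ℤ ℂ := RingHom.ext_int _ _
  rw [this]
  exact h1

/-- the ring of rational functions whose denominators have integer coefficients -/
abbrev RR (κ : Type) : Type := Localization (dens κ)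

/-- the field of rational functions -/
abbrev FF (κ : Type) : Type := FractionRing (MvPolynomial κ ℂ)

theorem isUnit_dens {κ : Type} (q : dens κ) :
    IsUnit (IsScalarTower.toAlgHom ℂ (MvPolynomial κ ℂ) (FF κ) (q : MvPolynomial κ ℂ)) :=
  IsLocalization.map_units (FF κ)
      (⟨q.1, dens_le κ q.2⟩ : nonZeroDivisors (MvPolynomial κ ℂ))

/-- the inclusion in the field of rational functions -/
def toF (κ : Type) : RR κ →ₐ[ℂ] FF κ :=
  IsLocalization.liftAlgHom (M := dens κ)
    (f := IsScalarTower.toAlgHom ℂ (MvPolynomial κ ℂ) (FF κ)) isUnit_dens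

/-- evaluation at a generic point -/
def evG {κ : Type} (y : κ → ℂ) (hy : IsGen y) : RR κ →ₐ[ℂ] ℂ :=
  IsLocalization.liftAlgHom (M := dens κ) (f := (aeval y : MvPolynomial κ ℂ →ₐ[ℂ] ℂ))
    (isUnit_aeval_dens hy)

theorem toF_algebraMap {κ : Type} (p : MvPolynomial κ ℂ) :
    toF κ (algebraMap _ (RR κ) p) = algebraMap _ (FF κ) p := by
  simp [toF]

theorem evG_algebraMap {κ : Type} {y : κ → ℂ} (hy : IsGen y) (p : MvPolynomial κ ℂ) :
    evG y hy (algebraMap _ (RR κ) p) = eval y p := by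
  simp [evG]

theorem toF_injective (κ : Type) : Function.Injective (toF κ) := by
  rw [injective_iff_map_eq_zero]
  intro x hx
  obtain ⟨⟨p, q⟩, hpq⟩ := IsLocalization.surj (dens κ) x
  have h1 := congrArg (toF κ) hpq
  rw [map_mul, hx, zero_mul, toF_algebraMap] at h1
  have h2 : p = 0 := by
    apply IsFractionRing.injective (MvPolynomial κ ℂ) (FF κ)
    rw [map_zero, ← h1]
  simp only at hpq
  rw [h2, map_zero] at hpq
  exact (IsLocalization.map_units (RR κ) q).mul_left_eq_zero.mp hpq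

theorem eq_zero_of_evG {κ : Type} [Finite κ] (x : RR κ)
    (h : ∀ (y : κ → ℂ) (hy : IsGen y), evG y hy x = 0) : x = 0 := by
  obtain ⟨⟨p, q⟩, hpq⟩ := IsLocalization.surj (dens κ) x
  have h2 : p = 0 := by
    by_contra hp
    obtain ⟨y, hy, hyp⟩ := exists_isGen p hp
    apply hyp
    have h1 := congrArg (evG y hy) hpq
    rw [map_mul, h y hy, zero_mul, evG_algebraMap] at h1
    exact h1.symm
  simp only at hpq
  rw [h2, map_zero] at hpq
  exact (IsLocalization.map_units (RR κ) q).mul_left_eq_zero.mp hpq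

section Family

variable {r : ℕ}

/-- the generic points over the field of rational functions -/
def yF {k : ℕ} (hk : k ≤ r) : Fin k → ι → FF (Fin r × ι) :=
  fun i ρ => algebraMap _ _ (genPt ℂ hk i ρ)

/-- the generic points over the ring `RR` -/
def yR {k : ℕ} (hk : k ≤ r) : Fin k → ι → RR (Fin r × ι) :=
  fun i ρ => algebraMap _ _ (genPt ℂ hk i ρ)

/-- the first `k` of `r` complex points -/
def yC (y : Fin r × ι → ℂ) {k : ℕ} (hk : k ≤ r) : Fin k → ι → ℂ :=
  fun i ρ => y (Fin.castLE hk i, ρ)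

theorem toF_yR {k : ℕ} (hk : k ≤ r) (i : Fin k) (ρ : ι) :
    toF (Fin r × ι) (yR hk i ρ) = yF hk i ρ := toF_algebraMap _

theorem evG_yR {k : ℕ} (hk : k ≤ r) (i : Fin k) (ρ : ι) {y : Fin r × ι → ℂ} (hy : IsGen y) :
    evG y hy (yR hk i ρ) = yC y hk i ρ := by
  rw [yR, evG_algebraMap, genPt, eval_X]
  rfl

theorem det_yF {k : ℕ} (hk : k ≤ r) (b : Fin k → (ι →₀ ℕ)) :
    (evMat (yF hk) b).det = algebraMap _ (FF (Fin r × ι)) (evMat (genPt ℂ hk) b).det :=
  (map_det_evMat _ _ _).symm

theorem genPt_int {k : ℕ} (hk : k ≤ r) (i : Fin k) (ρ : ι) :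
    MvPolynomial.map (Int.castRingHom ℂ) (genPt ℤ hk i ρ) = genPt ℂ hk i ρ := by
  simp [genPt]

theorem det_genPt_int {k : ℕ} (hk : k ≤ r) (b : Fin k → (ι →₀ ℕ)) :
    MvPolynomial.map (Int.castRingHom ℂ) (evMat (genPt ℤ hk) b).det =
      (evMat (genPt ℂ hk) b).det := by
  rw [map_det_evMat]
  congr 2
  funext i ρ
  exact genPt_int hk i ρ

theorem det_genPt_mem_dens {k : ℕ} (hk : k ≤ r) {b : Fin k → (ι →₀ ℕ)}
    (hb : (evMat (genPt (ι := ι) (r := r) ℂ hk) b).det ≠ 0) :
    (evMat (genPt ℂ hk) b).det ∈ dens (Fin r × ι) := by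
  refine ⟨(evMat (genPt ℤ hk) b).det, ?_, det_genPt_int hk b⟩
  apply mem_nonZeroDivisors_of_ne_zero
  intro h
  apply hb
  rw [← det_genPt_int, h, map_zero]

theorem det_yF_ne_zero {k : ℕ} (hk : k ≤ r) {b : Fin k → (ι →₀ ℕ)}
    (hb : Function.Injective b) : (evMat (yF (r := r) hk) b).det ≠ 0 := by
  rw [det_yF]
  intro h
  apply det_genPt_ne_zero (R := ℂ) hk hb
  apply IsFractionRing.injective (MvPolynomial (Fin r × ι) ℂ) (FF (Fin r × ι))
  rw [h, map_zero]

theorem det_yC {k : ℕ} (hk : k ≤ r) (b : Fin k → (ι →₀ ℕ)) (y : Fin r × ι → ℂ) :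
    (evMat (yC y hk) b).det = eval y (evMat (genPt ℂ hk) b).det := by
  rw [map_det_evMat]
  congr 2
  funext i ρ
  simp [genPt, yC]

theorem det_yC_ne_zero {k : ℕ} (hk : k ≤ r) {b : Fin k → (ι →₀ ℕ)}
    (hb : Function.Injective b) {y : Fin r × ι → ℂ} (hy : IsGen y) :
    (evMat (yC y hk) b).det ≠ 0 := by
  have h1 := hy _ (det_genPt_ne_zero (R := ℤ) hk hb)
  rw [det_yC, ← det_genPt_int, eval_map]
  rw [aeval_def] at h1
  exact h1

/-- ideals of generic complex points have the generic Hilbert function -/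
theorem pIdeal_yC_mem (hfin : ∀ D, Finite {m : ι →₀ ℕ // Finsupp.weight w m = D})
    {k : ℕ} (hk : k ≤ r) {y : Fin r × ι → ℂ} (hy : IsGen y) :
    pIdeal w (yC y hk) ∈ Hilb w (genHF w k) ℂ := by
  classical
  apply mem_hilb_of_isBasisAt (isHomog_pIdeal _)
  intro D
  have := hfin D
  have : Fintype {m : ι →₀ ℕ // Finsupp.weight w m = D} := Fintype.ofFinite _
  rw [genHF_eq, Nat.card_eq_fintype_card]
  rcases le_total k (Fintype.card {m : ι →₀ ℕ // Finsupp.weight w m = D}) with hle | hle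
  · rw [min_eq_left hle]
    obtain ⟨b⟩ : Nonempty (Fin k ↪ {m : ι →₀ ℕ // Finsupp.weight w m = D}) := by
      apply Function.Embedding.nonempty_of_card_le
      rwa [Fintype.card_fin]
    refine ⟨fun j => (b j).1, isBasisAt_pIdeal (fun j => (b j).2) ?_⟩
    exact det_yC_ne_zero hk (fun i j h => b.injective (Subtype.ext h)) hy
  · rw [min_eq_right hle]
    let e := (Fintype.equivFin {m : ι →₀ ℕ // Finsupp.weight w m = D}).symm
    refine ⟨fun j => (e j).1, isBasisAt_pIdeal' hle (fun j => (e j).2) ?_ ?_⟩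
    · intro m hm
      exact ⟨e.symm ⟨m, hm⟩, by rw [Equiv.apply_symm_apply]⟩
    · exact det_yC_ne_zero (hle.trans hk) (fun i j h => e.injective (Subtype.ext h)) hy

end Family

section Place

variable {r : ℕ} (G : Subalgebra ℂ (FF (Fin r × ι) × ℂ))

/-- the test ring: pairs of a rational function with integral denominators and of its value
under the place `G` -/
def R1 : Subalgebra ℂ (RR (Fin r × ι) × ℂ) :=
  G.comap (((toF (Fin r × ι)).comp (AlgHom.fst ℂ _ _)).prod (AlgHom.snd ℂ _ _))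

theorem mem_R1 {x : RR (Fin r × ι)} {a : ℂ} : (x, a) ∈ R1 G ↔ (toF _ x, a) ∈ G := Iff.rfl

/-- the test ring as a type -/
def RT : Type := R1 G

instance : CommRing (RT G) := inferInstanceAs (CommRing (R1 G))

instance : Algebra ℂ (RT G) := inferInstanceAs (Algebra ℂ (R1 G))

/-- inclusion in the product -/
def piV : RT G →ₐ[ℂ] (RR (Fin r × ι) × ℂ) := (R1 G).val

/-- first projection -/
def piR : RT G →ₐ[ℂ] RR (Fin r × ι) := (AlgHom.fst ℂ _ _).comp (piV G)

/-- the map to the field of rational functions -/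
def piF : RT G →ₐ[ℂ] FF (Fin r × ι) := (toF (Fin r × ι)).comp (piR G)

/-- evaluation at a generic point -/
def piY (y : Fin r × ι → ℂ) (hy : IsGen y) : RT G →ₐ[ℂ] ℂ := (evG y hy).comp (piR G)

/-- the special point -/
def pi0 : RT G →ₐ[ℂ] ℂ := (AlgHom.snd ℂ _ _).comp (piV G)

variable {G}

theorem piF_injective (hG : IsGraph G) : Function.Injective (piF G) := by
  rw [injective_iff_map_eq_zero]
  rintro ⟨⟨x, a⟩, hx⟩ h
  have h1 : toF _ x = 0 := h
  have h2 : x = 0 := toF_injective _ (h1.trans (map_zero _).symm)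
  have h3 : a = 0 := by
    apply hG
    rw [← h1]
    exact hx
  exact Subtype.ext (Prod.ext h2 h3)

variable (w G)

/-- the family of ideals over the test ring -/
def fam {k : ℕ} (hk : k ≤ r) : Ideal (MvPolynomial ι (RT G)) :=
  (pIdeal w (yF hk)).comap (MvPolynomial.map (piF G : RT G →+* FF (Fin r × ι)))

variable {w G}

theorem mem_fam {k : ℕ} {hk : k ≤ r} {f : MvPolynomial ι (RT G)} :
    f ∈ fam w G hk ↔
      MvPolynomial.map (piF G : RT G →+* FF (Fin r × ι)) f ∈ pIdeal w (yF hk) := Iff.rfl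

theorem isBasisAt_fam (hG : IsGraph G) {k : ℕ} (hk : k ≤ r) {D : A} {n : ℕ}
    {b : Fin n → (ι →₀ ℕ)} (hb : IsBasisAt w (pIdeal w (yF (r := r) hk)) D b)
    (hc : ∀ m, Finsupp.weight w m = D → ∃ c : Fin n → RT G,
      monomial m 1 - lc b (fun j => piF G (c j)) ∈ pIdeal w (yF hk)) :
    IsBasisAt w (fam w G hk) D b where
  deg := hb.deg
  span m hm := by
    obtain ⟨c, hc⟩ := hc m hm
    refine ⟨c, ?_⟩
    rw [mem_fam, map_sub, map_monomial, map_lc, map_one]
    exact hc
  indep c hc := by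
    rw [mem_fam, map_lc] at hc
    have h1 := hb.indep _ hc
    funext j
    apply piF_injective hG
    rw [Pi.zero_apply, map_zero]
    exact congrFun h1 j

theorem fam_mem (hfin : ∀ D, Finite {m : ι →₀ ℕ // Finsupp.weight w m = D}) (hG : IsGraph G)
    (V : ValuationSubring (FF (Fin r × ι))) (hV : ∀ x ∈ V, ∃ a : ℂ, (x, a) ∈ G)
    {k : ℕ} (hk : k ≤ r) : fam w G hk ∈ Hilb w (genHF w k) (RT G) := by
  classical
  apply mem_hilb_of_isBasisAt (IsHomog.comap _ (isHomog_pIdeal _))
  intro D
  have := hfin D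
  have : Fintype {m : ι →₀ ℕ // Finsupp.weight w m = D} := Fintype.ofFinite _
  rw [genHF_eq, Nat.card_eq_fintype_card]
  rcases le_total k (Fintype.card {m : ι →₀ ℕ // Finsupp.weight w m = D}) with hle | hle
  · rw [min_eq_left hle]
    obtain ⟨b₀⟩ : Nonempty (Fin k ↪ {m : ι →₀ ℕ // Finsupp.weight w m = D}) := by
      apply Function.Embedding.nonempty_of_card_le
      rwa [Fintype.card_fin]
    have hne : Nonempty (Fin k → {m : ι →₀ ℕ // Finsupp.weight w m = D}) := ⟨b₀⟩
    let val : (Fin k → {m : ι →₀ ℕ // Finsupp.weight w m = D}) → V.ValueGroup := fun b =>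
      V.valuation (evMat (yF hk) (fun j => (b j).1)).det
    obtain ⟨b, hb⟩ := Finite.exists_max val
    have hdet : (evMat (yF (r := r) hk) (fun j => (b j).1)).det ≠ 0 := by
      intro h0
      have h1 := hb b₀
      simp only [val] at h1
      rw [h0, map_zero, le_zero_iff, map_eq_zero] at h1
      exact det_yF_ne_zero hk (b := fun j => (b₀ j).1)
        (fun i j h => b₀.injective (Subtype.ext h)) h1
    refine ⟨fun j => (b j).1, ?_⟩
    have hbas := isBasisAt_pIdeal (w := w) (fun j => (b j).2) hdet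
    refine isBasisAt_fam hG hk hbas ?_
    intro m hm
    have hV' : ∀ j, cf (yF (r := r) hk) (fun j => (b j).1) m j ∈ V := by
      intro j
      rw [← V.valuation_le_one_iff, cf, map_div₀]
      apply div_le_one_of_le₀ _ zero_le
      have h2 := hb (Function.update b j ⟨m, hm⟩)
      simp only [val] at h2
      have h4 : (fun l => (Function.update b j ⟨m, hm⟩ l).1) =
          Function.update (fun j => (b j).1) j m := by
        funext l
        by_cases hl : l = j
        · subst hl; simp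
        · simp [Function.update_of_ne hl]
      rw [h4] at h2
      exact h2
    have hdetC : (evMat (genPt (ι := ι) (r := r) ℂ hk) (fun j => (b j).1)).det ≠ 0 := by
      intro h0
      apply hdet
      rw [det_yF, h0, map_zero]
    have hex : ∀ j, ∃ c : RT G, piF G c = cf (yF (r := r) hk) (fun j => (b j).1) m j := by
      intro j
      obtain ⟨a, ha⟩ := hV _ (hV' j)
      let x : RR (Fin r × ι) := IsLocalization.mk' _
        (evMat (genPt ℂ hk) (Function.update (fun j => (b j).1) j m)).det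
        (⟨_, det_genPt_mem_dens hk hdetC⟩ : dens (Fin r × ι))
      have hx : toF _ x = cf (yF (r := r) hk) (fun j => (b j).1) m j := by
        rw [cf, eq_div_iff hdet, det_yF, det_yF, ← toF_algebraMap, ← toF_algebraMap, ← map_mul]
        congr 1
        exact IsLocalization.mk'_spec (RR (Fin r × ι)) _ _
      refine ⟨⟨(x, a), ?_⟩, hx⟩
      rw [mem_R1, hx]
      exact ha
    choose c hc using hex
    refine ⟨c, ?_⟩
    simp only [hc]
    rw [sub_lc_mem_pIdeal_iff (fun j => (b j).2) hm]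
    intro i
    exact cf_spec hdet m i
  · rw [min_eq_right hle]
    let e := (Fintype.equivFin {m : ι →₀ ℕ // Finsupp.weight w m = D}).symm
    have hsurj : ∀ m : ι →₀ ℕ, Finsupp.weight w m = D → ∃ j, (e j).1 = m := fun m hm =>
      ⟨e.symm ⟨m, hm⟩, by rw [Equiv.apply_symm_apply]⟩
    have hbas := isBasisAt_pIdeal' (w := w) hle (y := yF (r := r) hk) (fun j => (e j).2) hsurj
      (det_yF_ne_zero (hle.trans hk) (fun i j h => e.injective (Subtype.ext h)))
    refine ⟨fun j => (e j).1, isBasisAt_fam hG hk hbas ?_⟩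
    intro m hm
    obtain ⟨j, rfl⟩ := hsurj m hm
    refine ⟨Pi.single j 1, ?_⟩
    have : lc (fun j => (e j).1) (fun l => piF G (Pi.single (M := fun _ => RT G) j 1 l)) =
        monomial (e j).1 1 := by
      rw [lc, Finset.sum_eq_single j]
      · rw [Pi.single_eq_same, map_one]
      · intro l _ hl
        rw [Pi.single_eq_of_ne hl, map_zero, map_zero]
      · intro h; exact absurd (Finset.mem_univ _) h
    rw [this, sub_self]
    exact Ideal.zero_mem _

/-- the fibres of the family at generic points -/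
theorem fam_map_piY (hfin : ∀ D, Finite {m : ι →₀ ℕ // Finsupp.weight w m = D}) (hG : IsGraph G)
    (V : ValuationSubring (FF (Fin r × ι))) (hV : ∀ x ∈ V, ∃ a : ℂ, (x, a) ∈ G)
    {k : ℕ} (hk : k ≤ r) {y : Fin r × ι → ℂ} (hy : IsGen y) :
    (fam w G hk).map (MvPolynomial.map (piY G y hy : RT G →+* ℂ)) = pIdeal w (yC y hk) := by
  apply eq_of_le_of_mem_hilb (map_mem_hilb _ (fam_mem hfin hG V hV hk)) (pIdeal_yC_mem hfin hk hy)
  rw [Ideal.map_le_iff_le_comap]
  have hhom : IsHomog w (fam w G hk) := IsHomog.comap _ (isHomog_pIdeal _)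
  apply hhom.le_of
  intro D f hf hfJ
  rw [Ideal.mem_comap, mem_pIdeal_iff (isWeightedHomogeneous_map _ hf)]
  intro i
  rw [mem_fam, mem_pIdeal_iff (isWeightedHomogeneous_map _ hf)] at hfJ
  have h1 : eval (yR hk i) (MvPolynomial.map (piR G : RT G →+* RR (Fin r × ι)) f) = 0 := by
    apply toF_injective
    rw [map_zero, ← hfJ i]
    have h2 := eval_map_comm (toF (Fin r × ι) : RR (Fin r × ι) →+* FF (Fin r × ι)) (yR hk i)
      (MvPolynomial.map (piR G : RT G →+* RR (Fin r × ι)) f)
    rw [map_map] at h2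
    refine h2.trans ?_
    congr 2
    funext ρ
    exact toF_yR hk i ρ
  have h3 := eval_map_comm (evG y hy : RR (Fin r × ι) →+* ℂ) (yR hk i)
      (MvPolynomial.map (piR G : RT G →+* RR (Fin r × ι)) f)
  rw [h1, map_zero, map_map] at h3
  refine Eq.trans ?_ h3.symm
  congr 2
  funext ρ
  exact (evG_yR hk i ρ hy).symm

end Place

end

end Pool.Agent.SlipFlag
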