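import Pool.Agent.helper93.SlipToricLemmas

/-!
# Sanity checks for the definitions used in the flag theorem
-/

open MvPolynomial

namespace Pool.Agent.SlipFlag

noncomputable section

namespace SmoothCompleteFan

variable {n d : ℕ} (X : SmoothCompleteFan n d)

/-- `I_Z` is homogeneous. -/
theorem isHomog_pointIdeal (Z : Set X.Point) : IsHomog X.deg (X.pointIdeal Z) :=
  isHomog_span fun _ hf => hf.1

/-- `I_Z` is saturated with respect to the irrelevant ideal `B`. -/
theorem pointIdeal_saturated (Z : Set X.Point) {f : MvPolynomial (Fin d) ℂ}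
    (hf : ∀ g ∈ X.irrelevantIdeal, f * g ∈ X.pointIdeal Z) : f ∈ X.pointIdeal Z := by
  classical
  rw [(X.isHomog_pointIdeal Z).mem_iff (w := X.deg)]
  intro D
  rw [X.mem_pointIdeal_iff (weightedHomogeneousComponent_isWeightedHomogeneous D f)]
  intro z hz
  obtain ⟨g, hg, hgz⟩ := z.2
  -- some generator of `B` does not vanish at `z`
  have hgen : ∃ σ ∈ X.cones, eval z.1 (∏ ρ ∈ σᶜ, MvPolynomial.X ρ) ≠ 0 := by
    by_contra hcon
    push Not at hcon
    apply hgz
    have hle : X.irrelevantIdeal ≤ RingHom.ker (eval z.1) := by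
      refine Ideal.span_le.mpr ?_
      rintro _ ⟨σ, hσ, rfl⟩
      exact hcon σ hσ
    exact hle hg
  obtain ⟨σ, hσ, hσz⟩ := hgen
  set m : MvPolynomial (Fin d) ℂ := ∏ ρ ∈ σᶜ, MvPolynomial.X ρ with hm
  have hmhom : m.IsWeightedHomogeneous X.deg (∑ ρ ∈ σᶜ, X.deg ρ) :=
    IsWeightedHomogeneous.prod _ _ _ fun ρ _ => isWeightedHomogeneous_X ℂ X.deg ρ
  have h1 : f * m ∈ X.pointIdeal Z := hf m (Ideal.subset_span ⟨σ, hσ, rfl⟩)
  -- the component of degree `D + deg m` of `f * m` is `f_D * m`
  have h2 : weightedHomogeneousComponent X.deg (D + ∑ ρ ∈ σᶜ, X.deg ρ) (f * m) =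
      weightedHomogeneousComponent X.deg D f * m := by
    conv_lhs => rw [← sum_weightedHomogeneousComponent X.deg f,
      finsum_eq_sum _ (weightedHomogeneousComponent_finsupp f), Finset.sum_mul, map_sum]
    have h3 : ∀ E : X.Pic, weightedHomogeneousComponent X.deg (D + ∑ ρ ∈ σᶜ, X.deg ρ)
        (weightedHomogeneousComponent X.deg E f * m) =
          if E = D then weightedHomogeneousComponent X.deg D f * m else 0 := by
      intro E
      have hE : (weightedHomogeneousComponent X.deg E f * m).IsWeightedHomogeneous X.deg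
          (E + ∑ ρ ∈ σᶜ, X.deg ρ) :=
        (weightedHomogeneousComponent_isWeightedHomogeneous E f).mul hmhom
      split_ifs with h
      · subst h
        exact hE.weightedHomogeneousComponent_same
      · apply hE.weightedHomogeneousComponent_ne
        intro h4
        exact h (add_right_cancel h4).symm
    simp only [h3]
    rw [Finset.sum_ite_eq']
    split_ifs with h
    · rfl
    · have h' : weightedHomogeneousComponent X.deg D f = 0 := by
        by_contra h0
        exact h ((Set.Finite.mem_toFinset _).mpr h0)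
      rw [h', zero_mul]
  have h4 := X.isHomog_pointIdeal Z _ h1 (D + ∑ ρ ∈ σᶜ, X.deg ρ)
  rw [h2] at h4
  rw [X.mem_pointIdeal_iff ((weightedHomogeneousComponent_isWeightedHomogeneous D f).mul
    hmhom)] at h4
  have h5 := h4 z hz
  rw [map_mul] at h5
  exact (mul_eq_zero.mp h5).resolve_right hσz

/-- `Slip_{k,X}` is not empty as soon as `X` has a ray, i.e. positive dimension. -/
theorem slip_nonempty (ρ₀ : Fin d) (k : ℕ) : (X.Slip k).Nonempty := by
  classical
  obtain ⟨y, hy, _⟩ := exists_isGen (κ := Fin k × Fin d) 1 one_ne_zero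
  have hyne : ∀ p, y p ≠ 0 := by
    intro p hp
    apply hy (MvPolynomial.X p) (X_ne_zero p)
    rw [aeval_X, hp]
  let z : Fin k → X.CoxPoint := fun i =>
    ⟨yC y le_rfl i, X.exists_irrelevant fun ρ => hyne _⟩
  have hinj : Function.Injective (fun i => X.mkPoint (z i)) := by
    intro i j hij
    by_contra hne
    obtain ⟨t, ht, h⟩ := X.mkPoint_eq_iff.mp hij
    exact X.not_rel_of_isGen hy ρ₀ (i := i) (j := j) hne ht h
  have hmem := pIdeal_yC_mem (w := X.deg) X.finite_monomials (le_refl k) hy
  refine ⟨_, ⟨⟨_, hmem⟩, @subset_closure _ (hilbTopology X.deg (X.genericHilb k)) _ _ ?_, rfl⟩⟩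
  refine ⟨Finset.univ.image (fun i => X.mkPoint (z i)), ?_, ?_⟩
  · rw [Finset.card_image_of_injective _ hinj, Finset.card_univ, Fintype.card_fin]
  · symm
    apply X.pointIdeal_eq_pIdeal z
    intro p
    simp

end SmoothCompleteFan

/-- The fan of the projective line. -/
def projectiveLine : SmoothCompleteFan 1 2 where
  u := ![fun _ => 1, fun _ => -1]
  cones := {∅, {0}, {1}}
  ray_mem := by
    intro ρ
    fin_cases ρ <;> simp
  face_mem := by
    intro σ hσ τ hτ
    rcases hσ with rfl | rfl | rfl
    · left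
      exact Finset.subset_empty.mp hτ
    · rcases Finset.subset_singleton_iff.mp hτ with rfl | rfl
      · left; rfl
      · right; left; rfl
    · rcases Finset.subset_singleton_iff.mp hτ with rfl | rfl
      · left; rfl
      · right; right; rfl
  smooth := by
    have key : ∀ ε : ℤˣ, ∃ b : Module.Basis (Fin 1) ℤ (Fin 1 → ℤ), b 0 = fun _ => (ε : ℤ) := by
      intro ε
      refine ⟨(Pi.basisFun ℤ (Fin 1)).isUnitSMul (w := fun _ => (ε : ℤ)) (fun _ => ε.isUnit), ?_⟩
      rw [Module.Basis.isUnitSMul_apply]
      funext j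
      simp [Subsingleton.elim j 0]
    intro σ hσ
    rcases hσ with rfl | rfl | rfl
    · obtain ⟨b, hb⟩ := key 1
      exact ⟨b, fun ρ => absurd ρ.2 (Finset.notMem_empty _), fun ρ => absurd ρ.2 (Finset.notMem_empty _),
        fun ρ => absurd ρ.2 (Finset.notMem_empty _)⟩
    · obtain ⟨b, hb⟩ := key 1
      refine ⟨b, fun _ => 0, ?_, ?_⟩
      · intro i j _
        apply Subtype.ext
        rw [Finset.mem_singleton.mp i.2, Finset.mem_singleton.mp j.2]
      · rintro ⟨ρ, hρ⟩
        rw [Finset.mem_singleton] at hρ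
        subst hρ
        rw [hb]
        rfl
    · obtain ⟨b, hb⟩ := key (-1)
      refine ⟨b, fun _ => 0, ?_, ?_⟩
      · intro i j _
        apply Subtype.ext
        rw [Finset.mem_singleton.mp i.2, Finset.mem_singleton.mp j.2]
      · rintro ⟨ρ, hρ⟩
        rw [Finset.mem_singleton] at hρ
        subst hρ
        rw [hb]
        rfl
  inter := by
    have hpos : ∀ v ∈ cone (![fun _ => 1, fun _ => -1] : Fin 2 → Fin 1 → ℤ) {0}, 0 ≤ v 0 := by
      rintro v ⟨c, hc, rfl⟩
      simpa using hc 0
    have hneg : ∀ v ∈ cone (![fun _ => 1, fun _ => -1] : Fin 2 → Fin 1 → ℤ) {1}, v 0 ≤ 0 := by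
      rintro v ⟨c, hc, rfl⟩
      simpa using hc 1
    have hzero : ∀ σ, (0 : Fin 1 → ℝ) ∈
        cone (![fun _ => 1, fun _ => -1] : Fin 2 → Fin 1 → ℤ) σ := fun σ =>
      ⟨0, fun _ => le_rfl, by simp⟩
    have hempty : cone (![fun _ => 1, fun _ => -1] : Fin 2 → Fin 1 → ℤ) ∅ = {0} := by
      ext v
      constructor
      · rintro ⟨c, _, rfl⟩
        simp
      · rintro rfl
        exact hzero _
    intro σ hσ τ hτ
    rcases hσ with rfl | rfl | rfl <;> rcases hτ with rfl | rfl | rfl
    · simp
    · rw [Finset.empty_inter, hempty, Set.inter_eq_left, Set.singleton_subset_iff]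
      exact hzero _
    · rw [Finset.empty_inter, hempty, Set.inter_eq_left, Set.singleton_subset_iff]
      exact hzero _
    · rw [Finset.inter_empty, hempty, Set.inter_eq_right, Set.singleton_subset_iff]
      exact hzero _
    · simp
    · have : ({0} ∩ {1} : Finset (Fin 2)) = ∅ := by decide
      rw [this, hempty]
      ext v
      constructor
      · rintro ⟨h1, h2⟩
        have := le_antisymm (hneg v h2) (hpos v h1)
        funext j
        rw [Subsingleton.elim j 0, this]
        rfl
      · rintro rfl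
        exact ⟨hzero _, hzero _⟩
    · rw [Finset.inter_empty, hempty, Set.inter_eq_right, Set.singleton_subset_iff]
      exact hzero _
    · have : ({1} ∩ {0} : Finset (Fin 2)) = ∅ := by decide
      rw [this, hempty]
      ext v
      constructor
      · rintro ⟨h1, h2⟩
        have := le_antisymm (hneg v h1) (hpos v h2)
        funext j
        rw [Subsingleton.elim j 0, this]
        rfl
      · rintro rfl
        exact ⟨hzero _, hzero _⟩
    · simp
  complete := by
    intro v
    rcases le_total 0 (v 0) with h | h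
    · refine ⟨{0}, by simp, fun _ => v 0, fun _ => h, ?_⟩
      funext j
      simp [Subsingleton.elim j 0]
    · refine ⟨{1}, by simp, fun _ => -v 0, fun _ => by linarith, ?_⟩
      funext j
      simp [Subsingleton.elim j 0]

end

end Pool.Agent.SlipFlag
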