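import Pool.Agent.helper93.SlipHilb

/-!
# Smooth complete toric varieties, their Cox rings and the varieties `Slip`
-/

open MvPolynomial

namespace Pool.Agent.SlipFlag

noncomputable section

/-- The pairing `⟨m, v⟩` of `m ∈ M = ℤⁿ` with `v ∈ N = ℤⁿ`. -/
def pair {n : ℕ} (m v : Fin n → ℤ) : ℤ := ∑ j, m j * v j

/-- The cone in `N_ℝ = ℝⁿ` generated by the vectors `u ρ`, `ρ ∈ σ`. -/
def cone {n d : ℕ} (u : Fin d → Fin n → ℤ) (σ : Finset (Fin d)) : Set (Fin n → ℝ) :=
  {v | ∃ c : Fin d → ℝ, (∀ ρ, 0 ≤ c ρ) ∧ v = ∑ ρ ∈ σ, c ρ • (fun j => (u ρ j : ℝ))}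

/-- A smooth complete fan in `N_ℝ = ℝⁿ`, `N = ℤⁿ`, with `d` rays: this is the combinatorial datum
of a smooth complete toric variety of dimension `n` (every smooth projective toric
variety is of this kind). `u ρ` is the primitive generator of the ray `ρ`, and each cone of the fan
is given by the set of its rays. -/
structure SmoothCompleteFan (n d : ℕ) where
  /-- the primitive generators of the rays -/
  u : Fin d → Fin n → ℤ
  /-- the cones of the fan, each given by the set of its rays -/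
  cones : Set (Finset (Fin d))
  /-- every ray is a cone of the fan -/
  ray_mem : ∀ ρ, {ρ} ∈ cones
  /-- every face of a cone of the fan is in the fan -/
  face_mem : ∀ σ ∈ cones, ∀ τ ⊆ σ, τ ∈ cones
  /-- smoothness: the ray generators of a cone are part of a `ℤ`-basis of `N` -/
  smooth : ∀ σ ∈ cones, ∃ (b : Module.Basis (Fin n) ℤ (Fin n → ℤ)) (e : σ → Fin n),
    Function.Injective e ∧ ∀ ρ : σ, b (e ρ) = u ρ
  /-- two cones intersect in their common face -/
  inter : ∀ σ ∈ cones, ∀ τ ∈ cones, cone u σ ∩ cone u τ = cone u (σ ∩ τ)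
  /-- completeness: the cones cover `N_ℝ` -/
  complete : ∀ v : Fin n → ℝ, ∃ σ ∈ cones, v ∈ cone u σ

namespace SmoothCompleteFan

variable {n d : ℕ} (X : SmoothCompleteFan n d)

/-- The map `M → ℤ^{Σ(1)}`, `m ↦ div (χ^m) = (⟨m, u_ρ⟩)_ρ`. -/
def divMap : (Fin n → ℤ) →+ (Fin d → ℤ) where
  toFun m := fun ρ => pair m (X.u ρ)
  map_zero' := by funext ρ; simp [pair]
  map_add' m m' := by funext ρ; simp [pair, add_mul, Finset.sum_add_distrib]

/-- The Picard group `Pic X = ℤ^{Σ(1)} / M`. -/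
abbrev Pic : Type := (Fin d → ℤ) ⧸ X.divMap.range

/-- The grading of the Cox ring `ℂ[x_ρ : ρ ∈ Σ(1)]` by `Pic X`: the degree of the
variable `x_ρ` is the class of the divisor `D_ρ`. -/
def deg (ρ : Fin d) : X.Pic := QuotientAddGroup.mk (Pi.single ρ 1)

/-- The irrelevant ideal `B = ⟨ ∏_{ρ ∉ σ} x_ρ : σ ∈ Σ ⟩` of the Cox ring. -/
def irrelevantIdeal : Ideal (MvPolynomial (Fin d) ℂ) :=
  Ideal.span {f | ∃ σ ∈ X.cones, f = ∏ ρ ∈ σᶜ, MvPolynomial.X ρ}

/-- The points of `ℂ^{Σ(1)} ∖ V(B)`. -/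
def CoxPoint : Type := {z : Fin d → ℂ // ∃ f ∈ X.irrelevantIdeal, eval z f ≠ 0}

/-- The group `G = Hom(Pic X, ℂ^*) = {t ∈ (ℂ^*)^{Σ(1)} : ∏_ρ t_ρ^{⟨m, u_ρ⟩} = 1 for all m ∈ M}`. -/
def grp : Subgroup (Fin d → ℂˣ) where
  carrier := {t | ∀ m : Fin n → ℤ, ∏ ρ, t ρ ^ pair m (X.u ρ) = 1}
  mul_mem' := by
    intro t t' ht ht' m
    simp only [Pi.mul_apply, mul_zpow, Finset.prod_mul_distrib]
    rw [ht m, ht' m, one_mul]
  one_mem' := by intro m; simp
  inv_mem' := by
    intro t ht m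
    simp only [Pi.inv_apply, inv_zpow, Finset.prod_inv_distrib]
    rw [ht m, inv_one]

/-- The equivalence relation on `ℂ^{Σ(1)} ∖ V(B)` whose classes are the orbits of `G`. -/
def orbitRel : Setoid X.CoxPoint where
  r z z' := ∃ t ∈ X.grp, ∀ ρ, z'.1 ρ = (t ρ : ℂ) * z.1 ρ
  iseqv := by
    refine ⟨fun z => ⟨1, X.grp.one_mem, fun ρ => by simp⟩, ?_, ?_⟩
    · rintro z z' ⟨t, ht, h⟩
      refine ⟨t⁻¹, X.grp.inv_mem ht, fun ρ => ?_⟩
      rw [h ρ, Pi.inv_apply, ← mul_assoc, Units.inv_mul, one_mul]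
    · rintro z z' z'' ⟨t, ht, h⟩ ⟨t', ht', h'⟩
      refine ⟨t' * t, X.grp.mul_mem ht' ht, fun ρ => ?_⟩
      rw [h' ρ, h ρ, Pi.mul_apply, Units.val_mul, mul_assoc]

/-- The (closed) points of the toric variety `X = (ℂ^{Σ(1)} ∖ V(B)) / G` (Cox's construction). -/
def Point : Type := Quotient X.orbitRel

/-- The point of `X` with Cox coordinates `z`. -/
def mkPoint (z : X.CoxPoint) : X.Point := Quotient.mk X.orbitRel z

/-- The homogeneous ideal `I_Z` of a set `Z` of points of `X`: it is generated by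
the homogeneous elements of the Cox ring which vanish at all the points of `Z`. -/
def pointIdeal (Z : Set X.Point) : Ideal (MvPolynomial (Fin d) ℂ) :=
  Ideal.span {f | (∃ D, f.IsWeightedHomogeneous X.deg D) ∧
    ∀ z : X.CoxPoint, X.mkPoint z ∈ Z → eval z.1 f = 0}

/-- The generic Hilbert function `h_{k,X}(D) = min(k, dim S_D)` of `k` points of `X`. -/
def genericHilb (k : ℕ) (D : X.Pic) : ℕ :=
  min k (Module.finrank ℂ (weightedHomogeneousSubmodule ℂ X.deg D))

/-- The set `Slip_{k,X}`: the (Zariski) closure, in the multigraded Hilbert scheme of the Cox ring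
with Hilbert function `h_{k,X}`, of the set of the ideals `I_Z`, where `Z` is a set of `k` distinct
points of `X` whose ideal has Hilbert function `h_{k,X}`. -/
def Slip (k : ℕ) : Set (Ideal (MvPolynomial (Fin d) ℂ)) :=
  Subtype.val '' (@closure (Hilb X.deg (X.genericHilb k) ℂ)
    (hilbTopology X.deg (X.genericHilb k))
    {J | ∃ Z : Finset X.Point, Z.card = k ∧ J.1 = X.pointIdeal Z})

end SmoothCompleteFan

end

end Pool.Agent.SlipFlag
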