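import Pool.Agent.helper93.SlipToric
import Pool.Agent.helper93.SlipFlagAbs

/-!
# Toric lemmas
-/

open MvPolynomial

namespace Pool.Agent.SlipFlag

noncomputable section

namespace SmoothCompleteFan

variable {n d : ℕ} (X : SmoothCompleteFan n d)

theorem weight_deg (m : Fin d →₀ ℕ) :
    Finsupp.weight X.deg m = (QuotientAddGroup.mk (fun ρ => (m ρ : ℤ)) : X.Pic) := by
  rw [Finsupp.weight_apply, Finsupp.sum_fintype _ _ (fun i => zero_smul ℕ (X.deg i))]
  have h1 : (fun ρ => (m ρ : ℤ)) = ∑ ρ, (m ρ) • (Pi.single ρ (1 : ℤ) : Fin d → ℤ) := by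
    funext ρ'
    rw [Finset.sum_apply, Finset.sum_eq_single ρ']
    · simp
    · intro b _ hb
      simp [Pi.single_eq_of_ne (Ne.symm hb)]
    · intro h; exact absurd (Finset.mem_univ _) h
  rw [h1]
  have h2 : (QuotientAddGroup.mk (∑ ρ, (m ρ) • (Pi.single ρ (1 : ℤ) : Fin d → ℤ)) : X.Pic) =
      ∑ ρ, (QuotientAddGroup.mk ((m ρ) • (Pi.single ρ (1 : ℤ) : Fin d → ℤ)) : X.Pic) :=
    map_sum (QuotientAddGroup.mk' X.divMap.range) _ _
  rw [h2]
  rfl

/-- two monomials have the same degree iff they differ by the divisor of a character -/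
theorem weight_eq_iff (m m' : Fin d →₀ ℕ) :
    Finsupp.weight X.deg m = Finsupp.weight X.deg m' ↔
      ∃ k : Fin n → ℤ, ∀ ρ, (m ρ : ℤ) = m' ρ + pair k (X.u ρ) := by
  rw [weight_deg, weight_deg, eq_comm, QuotientAddGroup.eq]
  constructor
  · rintro ⟨k, hk⟩
    refine ⟨k, fun ρ => ?_⟩
    have h1 := congrFun hk ρ
    have h2 : pair k (X.u ρ) = -(m' ρ : ℤ) + m ρ := h1
    rw [h2]
    ring
  · rintro ⟨k, hk⟩
    refine ⟨k, ?_⟩
    funext ρ
    have h2 : X.divMap k ρ = pair k (X.u ρ) := rfl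
    rw [h2, Pi.add_apply, Pi.neg_apply, hk ρ]
    ring

/-- a lower bound for the pairings with the rays gives a lower bound for the pairing with any
real vector -/
theorem exists_bound (v : Fin n → ℝ) : ∃ c : Fin d → ℝ, (∀ ρ, 0 ≤ c ρ) ∧
    ∀ k : Fin n → ℤ, ∑ j, (k j : ℝ) * v j = ∑ ρ, c ρ * (pair k (X.u ρ) : ℝ) := by
  obtain ⟨σ, _, c, hc, hv⟩ := X.complete v
  have hv' : ∀ j, v j = ∑ ρ, (if ρ ∈ σ then c ρ else 0) * (X.u ρ j : ℝ) := by
    intro j
    rw [hv]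
    simp only [Finset.sum_apply, Pi.smul_apply, smul_eq_mul, ite_mul, zero_mul]
    rw [Finset.sum_ite_mem, Finset.univ_inter]
  refine ⟨fun ρ => if ρ ∈ σ then c ρ else 0, fun ρ => ?_, fun k => ?_⟩
  · simp only; split_ifs
    · exact hc ρ
    · exact le_rfl
  · simp only [hv', pair, Int.cast_sum, Int.cast_mul, Finset.mul_sum]
    rw [Finset.sum_comm]
    refine Finset.sum_congr rfl fun ρ _ => Finset.sum_congr rfl fun j _ => ?_
    ring

/-- the graded pieces of the Cox ring of a complete toric variety are finite-dimensional -/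
theorem finite_monomials (D : X.Pic) :
    Finite {m : Fin d →₀ ℕ // Finsupp.weight X.deg m = D} := by
  classical
  by_cases hne : Nonempty {m : Fin d →₀ ℕ // Finsupp.weight X.deg m = D}
  swap
  · rw [not_nonempty_iff] at hne
    infer_instance
  obtain ⟨m₀, hm₀⟩ := hne
  have hk : ∀ m : {m : Fin d →₀ ℕ // Finsupp.weight X.deg m = D},
      ∃ k : Fin n → ℤ, ∀ ρ, (m.1 ρ : ℤ) = m₀ ρ + pair k (X.u ρ) := fun m =>
    (X.weight_eq_iff m.1 m₀).mp (m.2.trans hm₀.symm)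
  choose k hk using hk
  -- the `k m` lie in a bounded box
  have hbox : ∀ v : Fin n → ℝ, ∃ C : ℝ, ∀ m, -C ≤ ∑ j, (k m j : ℝ) * v j := by
    intro v
    obtain ⟨c, hc, hcv⟩ := X.exists_bound v
    refine ⟨∑ ρ, c ρ * (m₀ ρ : ℝ), fun m => ?_⟩
    rw [hcv, ← Finset.sum_neg_distrib]
    apply Finset.sum_le_sum
    intro ρ _
    have h1 : -(m₀ ρ : ℝ) ≤ (pair (k m) (X.u ρ) : ℝ) := by
      have h2 : ((m.1 ρ : ℤ) : ℝ) = ((m₀ ρ + pair (k m) (X.u ρ) : ℤ) : ℝ) := by rw [hk m ρ]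
      push_cast at h2
      have h3 : (0 : ℝ) ≤ (m.1 ρ : ℝ) := Nat.cast_nonneg _
      linarith
    have h4 := mul_le_mul_of_nonneg_left h1 (hc ρ)
    linarith
  have hbox' : ∀ j, ∃ C : ℕ, ∀ m, |k m j| ≤ C := by
    intro j
    obtain ⟨C₁, h₁⟩ := hbox (Pi.single j 1)
    obtain ⟨C₂, h₂⟩ := hbox (Pi.single j (-1))
    obtain ⟨C, hC⟩ := exists_nat_ge (max C₁ C₂)
    refine ⟨C, fun m => ?_⟩
    have e₁ : ∑ i, (k m i : ℝ) * (Pi.single j (1 : ℝ) : Fin n → ℝ) i = k m j := by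
      rw [Finset.sum_eq_single j]
      · simp
      · intro b _ hb; simp [Pi.single_eq_of_ne hb]
      · intro h; exact absurd (Finset.mem_univ _) h
    have e₂ : ∑ i, (k m i : ℝ) * (Pi.single j (-1 : ℝ) : Fin n → ℝ) i = -k m j := by
      rw [Finset.sum_eq_single j]
      · simp
      · intro b _ hb; simp [Pi.single_eq_of_ne hb]
      · intro h; exact absurd (Finset.mem_univ _) h
    have h3 := h₁ m
    have h4 := h₂ m
    rw [e₁] at h3
    rw [e₂] at h4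
    have h5 : C₁ ≤ C := (le_max_left _ _).trans hC
    have h6 : C₂ ≤ C := (le_max_right _ _).trans hC
    have h7 : |(k m j : ℝ)| ≤ C := by
      rw [abs_le]
      constructor <;> linarith
    exact_mod_cast h7
  choose C hC using hbox'
  let f : {m : Fin d →₀ ℕ // Finsupp.weight X.deg m = D} →
      (∀ j : Fin n, Set.Icc (-(C j : ℤ)) (C j)) := fun m j =>
    ⟨k m j, (abs_le.mp (hC j m)).1, (abs_le.mp (hC j m)).2⟩
  apply Finite.of_injective f
  intro m m' h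
  have h1 : k m = k m' := by
    funext j
    exact congrArg Subtype.val (congrFun h j)
  apply Subtype.ext
  ext ρ
  have h2 := hk m ρ
  rw [h1, ← hk m' ρ] at h2
  exact_mod_cast h2

/-- the value of a homogeneous polynomial at a point is well defined up to a unit -/
theorem eval_eq_zero_iff_of_rel {f : MvPolynomial (Fin d) ℂ} {D : X.Pic}
    (hf : f.IsWeightedHomogeneous X.deg D) {z z' : Fin d → ℂ} {t : Fin d → ℂˣ} (ht : t ∈ X.grp)
    (h : ∀ ρ, z' ρ = (t ρ : ℂ) * z ρ) : eval z' f = 0 ↔ eval z f = 0 := by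
  by_cases hf0 : f = 0
  · rw [hf0, map_zero, map_zero]
  obtain ⟨m₀, hm₀⟩ := MvPolynomial.ne_zero_iff.mp hf0
  have hχ : ∀ m : Fin d →₀ ℕ, coeff m f ≠ 0 →
      ∏ ρ, (t ρ) ^ (m ρ) = ∏ ρ, (t ρ) ^ (m₀ ρ) := by
    intro m hm
    obtain ⟨k, hk⟩ := (X.weight_eq_iff m m₀).mp ((hf hm).trans (hf hm₀).symm)
    have h1 : ∀ ρ, (t ρ) ^ (m ρ) = (t ρ) ^ (m₀ ρ) * (t ρ) ^ pair k (X.u ρ) := by
      intro ρ
      rw [← zpow_natCast, hk ρ, zpow_add, zpow_natCast]
    simp only [h1, Finset.prod_mul_distrib]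
    rw [ht k, mul_one]
  have h2 : eval z' f = ((∏ ρ, (t ρ) ^ (m₀ ρ) : ℂˣ) : ℂ) * eval z f := by
    rw [eval_eq', eval_eq', Finset.mul_sum]
    refine Finset.sum_congr rfl fun m hm => ?_
    rw [← hχ m (mem_support_iff.mp hm)]
    simp only [h, mul_pow, Finset.prod_mul_distrib, Units.coe_prod, Units.val_pow_eq_pow_val]
    ring
  rw [h2, mul_eq_zero, or_iff_right (Units.ne_zero _)]

theorem mem_pointIdeal_iff {f : MvPolynomial (Fin d) ℂ} {D : X.Pic}
    (hf : f.IsWeightedHomogeneous X.deg D) (Z : Set X.Point) :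
    f ∈ X.pointIdeal Z ↔ ∀ z : X.CoxPoint, X.mkPoint z ∈ Z → eval z.1 f = 0 := by
  constructor
  · intro h z hz
    have hle : X.pointIdeal Z ≤ RingHom.ker (eval z.1) := by
      rw [pointIdeal, Ideal.span_le]
      intro g hg
      exact hg.2 z hz
    exact hle h
  · intro h
    exact Ideal.subset_span ⟨⟨D, hf⟩, h⟩

theorem mkPoint_eq_iff {z z' : X.CoxPoint} :
    X.mkPoint z = X.mkPoint z' ↔ ∃ t ∈ X.grp, ∀ ρ, z'.1 ρ = (t ρ : ℂ) * z.1 ρ :=
  Quotient.eq (r := X.orbitRel)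

/-- the ideal of a set of points in terms of chosen Cox coordinates -/
theorem pointIdeal_eq_pIdeal {s : Type} (z : s → X.CoxPoint) {Z : Set X.Point}
    (hZ : ∀ p, p ∈ Z ↔ ∃ i, X.mkPoint (z i) = p) :
    X.pointIdeal Z = pIdeal X.deg (fun i => (z i).1) := by
  rw [pointIdeal, pIdeal]
  congr 1
  ext f
  constructor
  · rintro ⟨⟨D, hf⟩, h⟩
    exact ⟨⟨D, hf⟩, fun i => h (z i) ((hZ _).mpr ⟨i, rfl⟩)⟩
  · rintro ⟨⟨D, hf⟩, h⟩
    refine ⟨⟨D, hf⟩, fun z' hz' => ?_⟩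
    obtain ⟨i, hi⟩ := (hZ _).mp hz'
    obtain ⟨t, ht, h'⟩ := X.mkPoint_eq_iff.mp hi
    exact (X.eval_eq_zero_iff_of_rel hf ht h').mpr (h i)

/-- a point with nonzero coordinates is a point of `ℂ^{Σ(1)} ∖ V(B)` -/
theorem exists_irrelevant {z : Fin d → ℂ} (hz : ∀ ρ, z ρ ≠ 0) :
    ∃ f ∈ X.irrelevantIdeal, eval z f ≠ 0 := by
  obtain ⟨σ, hσ, _⟩ := X.complete 0
  refine ⟨∏ ρ ∈ σᶜ, MvPolynomial.X ρ, Ideal.subset_span ⟨σ, hσ, rfl⟩, ?_⟩
  rw [map_prod, Finset.prod_ne_zero_iff]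
  intro ρ _
  rw [eval_X]
  exact hz ρ

theorem u_ne_zero (ρ : Fin d) : X.u ρ ≠ 0 := by
  obtain ⟨b, e, _, he⟩ := X.smooth {ρ} (X.ray_mem ρ)
  rw [← he ⟨ρ, Finset.mem_singleton_self ρ⟩]
  exact b.ne_zero _

theorem exists_pair_ne_zero (ρ : Fin d) : ∃ m : Fin n → ℤ, pair m (X.u ρ) ≠ 0 := by
  refine ⟨X.u ρ, fun h => X.u_ne_zero ρ ?_⟩
  rw [pair, Finset.sum_eq_zero_iff_of_nonneg (fun j _ => mul_self_nonneg _)] at h
  funext j
  exact mul_self_eq_zero.mp (h j (Finset.mem_univ j))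

/-- generic points are different points of `X` -/
theorem not_rel_of_isGen {r : ℕ} {y : Fin r × Fin d → ℂ} (hy : IsGen y) (ρ₀ : Fin d)
    {i j : Fin r} (hij : i ≠ j) {t : Fin d → ℂˣ} (ht : t ∈ X.grp) :
    ¬ ∀ ρ, y (j, ρ) = (t ρ : ℂ) * y (i, ρ) := by
  classical
  intro h
  obtain ⟨m, hm⟩ := X.exists_pair_ne_zero ρ₀
  have hyne : ∀ p, y p ≠ 0 := by
    intro p hp
    apply hy (MvPolynomial.X p) (X_ne_zero p)
    rw [aeval_X, hp]
  -- exponents
  let a : Fin d → ℕ := fun ρ => (pair m (X.u ρ)).toNat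
  let b : Fin d → ℕ := fun ρ => (-pair m (X.u ρ)).toNat
  have hab : ∀ ρ, pair m (X.u ρ) = (a ρ : ℤ) - b ρ := by
    intro ρ
    simp only [a, b]
    omega
  have ht1 : ∏ ρ, (t ρ) ^ (a ρ) = ∏ ρ, (t ρ) ^ (b ρ) := by
    have h1 := ht m
    have h2 : ∀ ρ, (t ρ) ^ pair m (X.u ρ) = (t ρ) ^ (a ρ) * ((t ρ) ^ (b ρ))⁻¹ := by
      intro ρ
      rw [hab, zpow_sub, zpow_natCast, zpow_natCast]
    simp only [h2, Finset.prod_mul_distrib, Finset.prod_inv_distrib] at h1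
    exact mul_inv_eq_one.mp h1
  have ht2 : ∏ ρ, (t ρ : ℂ) ^ (a ρ) = ∏ ρ, (t ρ : ℂ) ^ (b ρ) := by
    have := congrArg (Units.val) ht1
    simpa only [Units.coe_prod, Units.val_pow_eq_pow_val] using this
  let q : MvPolynomial (Fin r × Fin d) ℤ :=
    (∏ ρ, MvPolynomial.X (j, ρ) ^ (a ρ)) * (∏ ρ, MvPolynomial.X (i, ρ) ^ (b ρ)) -
      (∏ ρ, MvPolynomial.X (i, ρ) ^ (a ρ)) * (∏ ρ, MvPolynomial.X (j, ρ) ^ (b ρ))
  have hq : q ≠ 0 := by
    intro hq0
    have h1 := congrArg (eval (fun p : Fin r × Fin d => if p = (j, ρ₀) then (2 : ℤ) else 1)) hq0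
    simp only [q, map_sub, map_mul, map_prod, map_pow, eval_X, map_zero] at h1
    have h2 : ∀ e : Fin d → ℕ, ∏ ρ, (if ((j, ρ) : Fin r × Fin d) = (j, ρ₀) then (2 : ℤ) else 1) ^ e ρ
        = 2 ^ e ρ₀ := by
      intro e
      rw [Finset.prod_eq_single ρ₀]
      · rw [if_pos rfl]
      · intro ρ _ hρ
        rw [if_neg (fun h => hρ (Prod.ext_iff.mp h).2), one_pow]
      · intro h; exact absurd (Finset.mem_univ _) h
    have h3 : ∀ e : Fin d → ℕ, ∏ ρ, (if ((i, ρ) : Fin r × Fin d) = (j, ρ₀) then (2 : ℤ) else 1) ^ e ρ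
        = 1 := by
      intro e
      apply Finset.prod_eq_one
      intro ρ _
      rw [if_neg (fun h => hij (Prod.ext_iff.mp h).1), one_pow]
    rw [h2, h3, h2, h3, mul_one, one_mul, sub_eq_zero] at h1
    have h4 : a ρ₀ = b ρ₀ := by
      have := Nat.pow_right_injective (le_refl 2) (a₁ := a ρ₀) (a₂ := b ρ₀) (by exact_mod_cast h1)
      exact this
    apply hm
    rw [hab, h4, sub_self]
  apply hy q hq
  simp only [q, map_sub, map_mul, map_prod, map_pow, aeval_X]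
  rw [sub_eq_zero]
  simp only [h, mul_pow, Finset.prod_mul_distrib]
  rw [ht2]
  ring

theorem genericHilb_eq (k : ℕ) : X.genericHilb k = genHF X.deg k := rfl

/-- **The flag condition.** -/
theorem flag_condition (r : ℕ) (I : Ideal (MvPolynomial (Fin d) ℂ)) (hI : I ∈ X.Slip r) :
    ∃ J : ℕ → Ideal (MvPolynomial (Fin d) ℂ), J r = I ∧ J 0 = ⊤ ∧
      (∀ k < r, J (k + 1) ≤ J k) ∧ ∀ k ≤ r, J k ∈ X.Slip k := by
  classical
  obtain ⟨I, hI, rfl⟩ := hI
  let U : (k : ℕ) → Set (Hilb X.deg (genHF X.deg k) ℂ) := fun k =>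
    {J | ∃ Z : Finset X.Point, Z.card = k ∧ J.1 = X.pointIdeal Z}
  have hU1 : ∀ J ∈ U r, ∃ z : Fin r → Fin d → ℂ, J.1 = pIdeal X.deg z := by
    rintro J ⟨Z, hZ, hJ⟩
    let e : Fin r ≃ Z := (Finset.equivFinOfCardEq hZ).symm
    have hz : ∀ i, ∃ z : X.CoxPoint, X.mkPoint z = (e i).1 := fun i =>
      Quotient.exists_rep (e i).1
    choose z hz using hz
    refine ⟨fun i => (z i).1, ?_⟩
    rw [hJ]
    apply X.pointIdeal_eq_pIdeal z
    intro p
    constructor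
    · intro hp
      refine ⟨e.symm ⟨p, hp⟩, ?_⟩
      rw [hz, Equiv.apply_symm_apply]
    · rintro ⟨i, rfl⟩
      rw [hz]
      exact (e i).2
  have hU2 : (U r).Nonempty → ∀ y : Fin r × Fin d → ℂ, IsGen y → ∀ (k : ℕ) (hk : k ≤ r)
      (J : Hilb X.deg (genHF X.deg k) ℂ), J.1 = pIdeal X.deg (yC y hk) → J ∈ U k := by
    rintro ⟨J₀, Z₀, hZ₀, _⟩ y hy k hk J hJ
    have hyne : ∀ p, y p ≠ 0 := by
      intro p hp
      apply hy (MvPolynomial.X p) (X_ne_zero p)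
      rw [aeval_X, hp]
    let z : Fin k → X.CoxPoint := fun i =>
      ⟨yC y hk i, X.exists_irrelevant fun ρ => hyne _⟩
    have hinj : Function.Injective (fun i => X.mkPoint (z i)) := by
      intro i j hij
      by_contra hne
      obtain ⟨t, ht, h⟩ := X.mkPoint_eq_iff.mp hij
      by_cases hd : Nonempty (Fin d)
      · obtain ⟨ρ₀⟩ := hd
        exact X.not_rel_of_isGen hy ρ₀ (i := Fin.castLE hk i) (j := Fin.castLE hk j)
          (fun h => hne (Fin.castLE_injective hk h)) ht h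
      · -- `X` is a point, so `r ≤ 1`
        rw [not_nonempty_iff] at hd
        have hsub : Subsingleton X.Point := by
          constructor
          intro p q
          obtain ⟨p, rfl⟩ := Quotient.exists_rep p
          obtain ⟨q, rfl⟩ := Quotient.exists_rep q
          congr 1
          exact Subtype.ext (Subsingleton.elim _ _)
        have hr : r ≤ 1 := by
          rw [← hZ₀]
          exact Finset.card_le_one_of_subsingleton Z₀
        have h1 : (i : ℕ) = j := by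
          have := i.2
          have := j.2
          omega
        exact hne (Fin.ext h1)
    refine ⟨Finset.univ.image (fun i => X.mkPoint (z i)), ?_, ?_⟩
    · rw [Finset.card_image_of_injective _ hinj, Finset.card_univ, Fintype.card_fin]
    · rw [hJ]
      symm
      apply X.pointIdeal_eq_pIdeal z
      intro p
      simp
  obtain ⟨J, h1, h2, h3, h4⟩ := flag_abstract (w := X.deg) X.finite_monomials r U hU1 hU2 I hI
  refine ⟨J, h1, h2, h3, fun k hk => ?_⟩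
  obtain ⟨K, hK, hKJ⟩ := h4 k hk
  exact ⟨K, hK, hKJ⟩

end SmoothCompleteFan

end

end Pool.Agent.SlipFlag
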